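import Mathlib

/-!
# Substitution of linear forms in polynomials
-/

set_option autoImplicit false
set_option linter.unusedSectionVars false

open MvPolynomial Matrix

namespace Pool.Agent.NH36.Vhc

variable {A : Type} [CommRing A] {σ τ ρ : Type} [Fintype σ] [Fintype τ] [Fintype ρ]

/-- the linear form with coefficients `v` -/
noncomputable def lf (v : τ → A) : MvPolynomial τ A := ∑ t, C (v t) * X t

/-- the polynomial `P (M y)` -/
noncomputable def cmp (M : Matrix σ τ A) : MvPolynomial σ A →ₐ[A] MvPolynomial τ A :=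
  aeval fun s => lf (M s)

lemma lf_hom (v : τ → A) : (lf v).IsHomogeneous 1 := by
  refine IsHomogeneous.sum _ _ _ fun t _ => ?_
  have := (isHomogeneous_C τ (v t)).mul (isHomogeneous_X A t)
  rwa [zero_add] at this

lemma lf_sub (v w : τ → A) : lf (v - w) = lf v - lf w := by
  unfold lf
  rw [← Finset.sum_sub_distrib]
  refine Finset.sum_congr rfl fun s _ => ?_
  rw [Pi.sub_apply, C_sub, sub_mul]

lemma lf_single [DecidableEq τ] (s : τ) : lf (Pi.single s (1 : A)) = X s := by
  unfold lf
  rw [Finset.sum_eq_single s]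
  · rw [Pi.single_eq_same, C_1, one_mul]
  · intro t _ ht
    rw [Pi.single_eq_of_ne ht, C_0, zero_mul]
  · intro h; exact absurd (Finset.mem_univ s) h

lemma cmp_one [DecidableEq τ] (P : MvPolynomial τ A) :
    cmp (1 : Matrix τ τ A) P = P := by
  have h2 : cmp (1 : Matrix τ τ A) = AlgHom.id A _ := by
    apply MvPolynomial.algHom_ext
    intro s
    rw [cmp, aeval_X, AlgHom.id_apply, ← lf_single]
    congr 1
    funext t
    rw [Matrix.one_apply, Pi.single_apply]
    simp only [eq_comm]
  rw [h2]; rfl

lemma cmp_X (M : Matrix σ τ A) (s : σ) : cmp M (X s) = lf (M s) := by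
  rw [cmp, aeval_X]

lemma cmp_lf (M : Matrix σ τ A) (v : σ → A) : cmp M (lf v) = lf (v ᵥ* M) := by
  unfold lf
  rw [map_sum]
  have h1 : ∀ s, cmp M (C (v s) * X s) = ∑ t, C (v s * M s t) * X t := by
    intro s
    rw [map_mul, cmp_X, lf, Finset.mul_sum]
    have h2 : cmp M (C (v s)) = C (v s) := by
      rw [cmp, aeval_C]; rfl
    rw [h2]
    refine Finset.sum_congr rfl fun t _ => ?_
    rw [C_mul, mul_assoc]
  simp only [h1]
  rw [Finset.sum_comm]
  refine Finset.sum_congr rfl fun t _ => ?_
  rw [← Finset.sum_mul, ← map_sum]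
  rfl

lemma cmp_cmp (M : Matrix σ τ A) (E : Matrix τ ρ A) (P : MvPolynomial σ A) :
    cmp E (cmp M P) = cmp (M * E) P := by
  have h1 : (cmp E).comp (cmp M) = cmp (M * E) := by
    apply MvPolynomial.algHom_ext
    intro s
    rw [AlgHom.comp_apply, cmp_X, cmp_lf, cmp_X]
    congr 1
  rw [← h1]; rfl

lemma cmp_hom (M : Matrix σ τ A) {P : MvPolynomial σ A} {n : ℕ} (hP : P.IsHomogeneous n) :
    (cmp M P).IsHomogeneous n := by
  have := hP.eval₂ (algebraMap A (MvPolynomial τ A)) (fun s => lf (M s)) (n := 1)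
    (fun r => isHomogeneous_C τ r) (fun s => lf_hom _)
  rwa [one_mul] at this

lemma eval_lf (v : τ → A) (y : τ → A) : eval y (lf v) = v ⬝ᵥ y := by
  unfold lf
  rw [map_sum]
  refine Finset.sum_congr rfl fun t _ => ?_
  rw [map_mul, eval_C, eval_X]

lemma eval_cmp (M : Matrix σ τ A) (y : τ → A) (P : MvPolynomial σ A) :
    eval y (cmp M P) = eval (M *ᵥ y) P := by
  have h1 : (aeval y : MvPolynomial τ A →ₐ[A] A).comp (cmp M) = aeval (M *ᵥ y) := by
    apply MvPolynomial.algHom_ext
    intro s
    rw [AlgHom.comp_apply, cmp_X, aeval_X, aeval_eq_eval]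
    exact eval_lf _ _
  have h2 := congrArg (fun f => f P) h1
  simpa [aeval_eq_eval] using h2

lemma map_lf {B : Type} [CommRing B] (f : A →+* B) (v : τ → A) :
    map f (lf v) = lf (fun t => f (v t)) := by
  unfold lf
  rw [map_sum]
  refine Finset.sum_congr rfl fun t _ => ?_
  rw [map_mul, map_C, map_X]

lemma map_cmp {B : Type} [CommRing B] (f : A →+* B) (M : Matrix σ τ A) (P : MvPolynomial σ A) :
    map f (cmp M P) = cmp (M.map f) (map f P) := by
  induction P using MvPolynomial.induction_on with
  | C a => simp [cmp]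
  | add p q hp hq => simp only [map_add, hp, hq]
  | mul_X p s hp =>
    rw [map_mul, map_mul, hp, map_mul, map_mul, cmp_X, map_X, cmp_X, map_lf]
    rfl

/-- the ideal generated by the coordinates of `x - M x` -/
noncomputable def rowId (M : Matrix σ σ A) : Ideal (MvPolynomial σ A) :=
  Ideal.span (Set.range fun s => X s - lf (M s))

lemma sub_mem (M : Matrix σ σ A) (P : MvPolynomial σ A) : P - cmp M P ∈ rowId M := by
  induction P using MvPolynomial.induction_on with
  | C a =>
    have : cmp M (C a) = C a := by rw [cmp, aeval_C]; rfl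
    rw [this, sub_self]
    exact Ideal.zero_mem _
  | add p q hp hq =>
    have : p + q - cmp M (p + q) = (p - cmp M p) + (q - cmp M q) := by rw [map_add]; ring
    rw [this]
    exact Ideal.add_mem _ hp hq
  | mul_X p s hp =>
    have : p * X s - cmp M (p * X s) = X s * (p - cmp M p) + cmp M p * (X s - lf (M s)) := by
      rw [map_mul, cmp_X]; ring
    rw [this]
    exact Ideal.add_mem _ (Ideal.mul_mem_left _ _ hp)
      (Ideal.mul_mem_left _ _ (Ideal.subset_span ⟨s, rfl⟩))

/-- Taylor's formula of order one -/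
lemma taylor {B : Type} [CommRing B] [Algebra A B] (u v : σ → B) (e : B) (P : MvPolynomial σ A) :
    ∃ Q : B, aeval (fun s => u s + e * v s) P =
      aeval u P + e * (∑ s, v s * aeval u (pderiv s P)) + e ^ 2 * Q := by
  classical
  induction P using MvPolynomial.induction_on with
  | C a => exact ⟨0, by simp⟩
  | add p q hp hq =>
    obtain ⟨Q1, h1⟩ := hp
    obtain ⟨Q2, h2⟩ := hq
    refine ⟨Q1 + Q2, ?_⟩
    rw [map_add, h1, h2]
    simp only [map_add, mul_add, Finset.sum_add_distrib]
    ring
  | mul_X p j hp =>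
    obtain ⟨Q1, h1⟩ := hp
    refine ⟨Q1 * (u j + e * v j) + (∑ s, v s * aeval u (pderiv s p)) * v j, ?_⟩
    rw [map_mul, h1, aeval_X, map_mul, aeval_X]
    have h3 : ∑ s, v s * aeval u (pderiv s (p * X j)) =
        (∑ s, v s * aeval u (pderiv s p)) * u j + v j * aeval u p := by
      have h4 : ∀ s, v s * aeval u (pderiv s (p * X j)) =
          v s * aeval u (pderiv s p) * u j + (if s = j then v s * aeval u p else 0) := by
        intro s
        rw [pderiv_mul, pderiv_X, map_add, map_mul, map_mul, aeval_X]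
        by_cases hs : s = j
        · subst hs
          rw [if_pos rfl, Pi.single_eq_same, map_one]
          ring
        · rw [if_neg hs, Pi.single_eq_of_ne (Ne.symm hs), map_zero]
          ring
      simp only [h4]
      rw [Finset.sum_add_distrib, Finset.sum_mul, Finset.sum_ite_eq' Finset.univ j]
      simp
    rw [h3]
    ring

end Pool.Agent.NH36.Vhc
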