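import Mathlib
import Pool.Agent.NH36.Vhc.Sub

/-!
# Flat functionals of a one-parameter family of polynomials, and the order to which a functional
attached to a linear subspace stays a Hodge class
-/

set_option autoImplicit false
set_option linter.unusedSectionVars false

open MvPolynomial Matrix

namespace Pool.Agent.NH36.Vhc

variable {K : Type} [Field K] {σ : Type} [Fintype σ]

/-- the coefficientwise derivative with respect to the parameter -/
noncomputable def dT (P : MvPolynomial σ (PowerSeries K)) : MvPolynomial σ (PowerSeries K) :=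
  ∑ m ∈ P.support, monomial m (PowerSeries.derivative K (P.coeff m))

/-- A functional `P ↦ Λ P` (the integral of `P exp F` over a flat family of cycles): the
twisted exact polynomials are in the kernel, and the Gauss-Manin connection is respected. -/
structure IsFlat (F : MvPolynomial σ (PowerSeries K))
    (Λ : MvPolynomial σ (PowerSeries K) →ₗ[PowerSeries K] PowerSeries K) : Prop where
  exact : ∀ (s : σ) (A : MvPolynomial σ (PowerSeries K)), Λ (pderiv s A + A * pderiv s F) = 0
  flat : ∀ P : MvPolynomial σ (PowerSeries K),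
    PowerSeries.derivative K (Λ P) = Λ (dT P + P * dT F)

lemma coeff_dT (P : MvPolynomial σ (PowerSeries K)) (m : σ →₀ ℕ) :
    (dT P).coeff m = PowerSeries.derivative K (P.coeff m) := by
  classical
  unfold dT
  rw [coeff_sum]
  simp only [coeff_monomial]
  rw [Finset.sum_ite_eq' P.support m]
  split_ifs with h
  · rfl
  · rw [notMem_support_iff.mp h, map_zero]

lemma dT_add (P Q : MvPolynomial σ (PowerSeries K)) : dT (P + Q) = dT P + dT Q := by
  ext1 m
  rw [coeff_add, coeff_dT, coeff_dT, coeff_dT, coeff_add, map_add]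

lemma dT_zero : dT (0 : MvPolynomial σ (PowerSeries K)) = 0 := by
  simp [dT]

lemma dT_mul (P Q : MvPolynomial σ (PowerSeries K)) : dT (P * Q) = dT P * Q + P * dT Q := by
  classical
  ext1 m
  rw [coeff_add, coeff_dT, coeff_mul, coeff_mul, coeff_mul, map_sum, ← Finset.sum_add_distrib]
  refine Finset.sum_congr rfl fun x _ => ?_
  rw [Derivation.leibniz, coeff_dT, coeff_dT, smul_eq_mul, smul_eq_mul]
  ring

lemma dT_C (a : PowerSeries K) :
    dT (C a : MvPolynomial σ (PowerSeries K)) = C (PowerSeries.derivative K a) := by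
  classical
  ext1 m
  rw [coeff_dT, coeff_C, coeff_C]
  split_ifs
  · rfl
  · exact map_zero _

lemma dT_X (s : σ) : dT (X s : MvPolynomial σ (PowerSeries K)) = 0 := by
  classical
  ext1 m
  rw [coeff_dT, coeff_X, coeff_zero]
  split_ifs
  · exact Derivation.map_one_eq_zero _
  · exact map_zero _

lemma dT_hom {P : MvPolynomial σ (PowerSeries K)} {n : ℕ} (hP : P.IsHomogeneous n) :
    (dT P).IsHomogeneous n := by
  intro m hm
  apply hP
  intro h
  apply hm
  rw [coeff_dT, h, map_zero]

lemma dT_sum {ι : Type} (s : Finset ι) (f : ι → MvPolynomial σ (PowerSeries K)) :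
    dT (∑ i ∈ s, f i) = ∑ i ∈ s, dT (f i) := by
  classical
  induction s using Finset.induction_on with
  | empty => simp [dT_zero]
  | insert a s ha ih => rw [Finset.sum_insert ha, Finset.sum_insert ha, dT_add, ih]

lemma dT_lf (v : σ → PowerSeries K) :
    dT (lf v) = lf (fun s => PowerSeries.derivative K (v s)) := by
  unfold lf
  rw [dT_sum]
  refine Finset.sum_congr rfl fun s _ => ?_
  rw [dT_mul, dT_C, dT_X, mul_zero, add_zero]

/-- derivative of a matrix -/
noncomputable def dM (M : Matrix σ σ (PowerSeries K)) : Matrix σ σ (PowerSeries K) :=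
  M.map (PowerSeries.derivative K)

/-- the derivation along the moving subspace -/
noncomputable def dD (M : Matrix σ σ (PowerSeries K)) (P : MvPolynomial σ (PowerSeries K)) :
    MvPolynomial σ (PowerSeries K) :=
  dT P + ∑ s, lf (dM M s) * pderiv s P

variable (M : Matrix σ σ (PowerSeries K))

lemma dD_add (P Q : MvPolynomial σ (PowerSeries K)) : dD M (P + Q) = dD M P + dD M Q := by
  unfold dD
  rw [dT_add]
  simp only [map_add, mul_add, Finset.sum_add_distrib]
  ring

lemma dD_mul (P Q : MvPolynomial σ (PowerSeries K)) :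
    dD M (P * Q) = dD M P * Q + P * dD M Q := by
  unfold dD
  rw [dT_mul]
  have h : ∀ s, lf (dM M s) * pderiv s (P * Q) =
      lf (dM M s) * pderiv s P * Q + P * (lf (dM M s) * pderiv s Q) := by
    intro s
    rw [pderiv_mul]; ring
  simp only [h, Finset.sum_add_distrib, ← Finset.sum_mul, ← Finset.mul_sum]
  ring

lemma dD_C (a : PowerSeries K) : dD M (C a) = C (PowerSeries.derivative K a) := by
  unfold dD
  rw [dT_C]
  simp

lemma dD_hom {P : MvPolynomial σ (PowerSeries K)} {n : ℕ} (hP : P.IsHomogeneous n) :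
    (dD M P).IsHomogeneous n := by
  refine (dT_hom hP).add (IsHomogeneous.sum _ _ _ fun s _ => ?_)
  rcases Nat.eq_zero_or_pos n with rfl | hn
  · have h1 : pderiv s P = 0 := by
      rw [totalDegree_eq_zero_iff_eq_C.mp (Nat.le_zero.mp hP.totalDegree_le), pderiv_C]
    rw [h1, mul_zero]
    exact isHomogeneous_zero _ _ _
  · have h1 := (lf_hom (dM M s)).mul (hP.pderiv (i := s))
    rwa [show 1 + (n - 1) = n by omega] at h1

lemma pderiv_lf [DecidableEq σ] (s : σ) (v : σ → PowerSeries K) : pderiv s (lf v) = C (v s) := by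
  unfold lf
  rw [map_sum, Finset.sum_eq_single s]
  · rw [pderiv_C_mul, pderiv_X_self, mul_one]
  · intro t _ ht
    rw [pderiv_C_mul, pderiv_X_of_ne ht, mul_zero]
  · intro h; exact absurd (Finset.mem_univ s) h

lemma lf_add (v w : σ → PowerSeries K) : lf (v + w) = lf v + lf w := by
  unfold lf
  rw [← Finset.sum_add_distrib]
  refine Finset.sum_congr rfl fun s _ => ?_
  rw [Pi.add_apply, C_add, add_mul]

lemma lf_vecMul (v : σ → PowerSeries K) (N : Matrix σ σ (PowerSeries K)) :
    lf (v ᵥ* N) = ∑ t, C (v t) * lf (N t) := by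
  unfold lf
  simp only [Finset.mul_sum]
  rw [Finset.sum_comm]
  refine Finset.sum_congr rfl fun t _ => ?_
  have : (v ᵥ* N) t = ∑ s, v s * N s t := rfl
  rw [this, map_sum, Finset.sum_mul]
  refine Finset.sum_congr rfl fun s _ => ?_
  rw [C_mul, mul_assoc]

lemma dM_mul [DecidableEq σ] (hM : M * M = M) : dM M * M + M * dM M = dM M := by
  funext i j
  have h1 : PowerSeries.derivative K ((M * M) i j) = PowerSeries.derivative K (M i j) := by
    rw [hM]
  rw [Matrix.mul_apply, map_sum] at h1
  rw [Matrix.add_apply, Matrix.mul_apply, Matrix.mul_apply, ← Finset.sum_add_distrib]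
  rw [show dM M i j = PowerSeries.derivative K (M i j) from rfl, ← h1]
  refine Finset.sum_congr rfl fun k _ => ?_
  rw [Derivation.leibniz, smul_eq_mul, smul_eq_mul]
  simp only [dM, Matrix.map_apply]
  ring

/-- the derivation preserves the ideal of the moving subspace -/
lemma dD_rowId [DecidableEq σ] (hM : M * M = M) {P : MvPolynomial σ (PowerSeries K)}
    (hP : P ∈ rowId M) : dD M P ∈ rowId M := by
  have hgen : ∀ s, dD M (X s - lf (M s)) ∈ rowId M := by
    intro s
    have h1 : dD M (X s - lf (M s)) = - ∑ t, C (dM M s t) * (X t - lf (M t)) := by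
      have e1 : dD M (X s) = lf (dM M s) := by
        unfold dD
        rw [dT_X, zero_add, Finset.sum_eq_single s]
        · rw [pderiv_X_self, mul_one]
        · intro t _ ht
          rw [pderiv_X_of_ne ht.symm, mul_zero]
        · intro h; exact absurd (Finset.mem_univ s) h
      have e2 : dD M (lf (M s)) = lf (dM M s) + lf ((M * dM M) s) := by
        unfold dD
        rw [dT_lf]
        congr 1
        have : (M * dM M) s = (M s) ᵥ* dM M := rfl
        rw [this, lf_vecMul]
        refine Finset.sum_congr rfl fun t _ => ?_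
        rw [pderiv_lf, mul_comm]
      have e3 : dD M (X s - lf (M s)) = dD M (X s) - dD M (lf (M s)) := by
        have := dD_add M (X s - lf (M s)) (lf (M s))
        rw [sub_add_cancel] at this
        rw [this]; ring
      have e4 : lf (dM M s) = lf ((dM M * M) s) + lf ((M * dM M) s) := by
        rw [← lf_add]
        congr 1
        have := congrFun (dM_mul M hM) s
        rw [← this]
        rfl
      have e5 : lf ((dM M * M) s) = ∑ t, C (dM M s t) * lf (M t) := by
        have : (dM M * M) s = (dM M s) ᵥ* M := rfl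
        rw [this, lf_vecMul]
      have e6 : ∑ t, C (dM M s t) * (X t - lf (M t)) =
          lf (dM M s) - ∑ t, C (dM M s t) * lf (M t) := by
        simp only [mul_sub, Finset.sum_sub_distrib]
        rfl
      rw [e3, e1, e2, e6, ← e5, e4]
      ring
    rw [h1]
    exact Ideal.neg_mem_iff _ |>.mpr (Ideal.sum_mem _ fun t _ =>
      Ideal.mul_mem_left _ _ (Ideal.subset_span ⟨t, rfl⟩))
  unfold rowId at hP
  refine Submodule.span_induction ?_ ?_ ?_ ?_ hP
  · rintro _ ⟨s, rfl⟩
    exact hgen s
  · have : dD M 0 = 0 := by simp [dD, dT_zero]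
    rw [this]; exact Ideal.zero_mem _
  · intro x y _ _ hx hy
    rw [dD_add]; exact Ideal.add_mem _ hx hy
  · intro a x hx hx'
    rw [smul_eq_mul, dD_mul]
    exact Ideal.add_mem _ (Ideal.mul_mem_left _ _ hx) (Ideal.mul_mem_left _ _ hx')

lemma dD_rowId_pow [DecidableEq σ] (hM : M * M = M) (a : ℕ) :
    ∀ {P : MvPolynomial σ (PowerSeries K)}, P ∈ rowId M ^ a → dD M P ∈ rowId M ^ a := by
  induction a with
  | zero => intro P _; simp
  | succ a ih =>
    intro P hP
    rw [pow_succ] at hP ⊢
    refine Submodule.mul_induction_on hP ?_ ?_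
    · intro x hx y hy
      rw [dD_mul]
      exact Ideal.add_mem _ (Ideal.mul_mem_mul (ih hx) hy)
        (Ideal.mul_mem_mul hx (dD_rowId M hM hy))
    · intro x y hx hy
      rw [dD_add]; exact Ideal.add_mem _ hx hy

/-- the fundamental identity -/
lemma deriv_eq [DecidableEq σ] {F : MvPolynomial σ (PowerSeries K)}
    {Λ : MvPolynomial σ (PowerSeries K) →ₗ[PowerSeries K] PowerSeries K} (hΛ : IsFlat F Λ)
    (P : MvPolynomial σ (PowerSeries K)) :
    PowerSeries.derivative K (Λ P) = Λ (dD M P) + Λ (P * dD M F) + (∑ s, dM M s s) * Λ P := by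
  have h1 : ∑ s, Λ (pderiv s (lf (dM M s) * P) + lf (dM M s) * P * pderiv s F) = 0 :=
    Finset.sum_eq_zero fun s _ => hΛ.exact s _
  have h2 : ∀ s, pderiv s (lf (dM M s) * P) + lf (dM M s) * P * pderiv s F =
      dM M s s • P + (lf (dM M s) * pderiv s P + P * (lf (dM M s) * pderiv s F)) := by
    intro s
    rw [pderiv_mul, pderiv_lf, smul_eq_C_mul]
    ring
  simp only [h2, map_add, map_smul, smul_eq_mul] at h1
  rw [Finset.sum_add_distrib, Finset.sum_add_distrib] at h1
  rw [hΛ.flat P]
  have h3 : Λ (dD M P) = Λ (dT P) + ∑ s, Λ (lf (dM M s) * pderiv s P) := by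
    unfold dD; rw [map_add, map_sum]
  have h4 : Λ (P * dD M F) = Λ (P * dT F) + ∑ s, Λ (P * (lf (dM M s) * pderiv s F)) := by
    unfold dD; rw [mul_add, Finset.mul_sum, map_add, map_sum]
  rw [h3, h4, map_add, Finset.sum_mul]
  linear_combination -h1

end Pool.Agent.NH36.Vhc
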