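import Mathlib
import Pool.Agent.NH36.Vhc.Flat

/-!
# The order to which a functional attached to a linear subspace stays a Hodge class
-/

set_option autoImplicit false
set_option linter.unusedSectionVars false

open MvPolynomial Matrix

namespace Pool.Agent.NH36.Vhc

variable {K : Type} [Field K] {σ : Type} [Fintype σ]

/-- the initial condition -/
def Kills (d T : ℕ) (I : Ideal (MvPolynomial σ K))
    (Λ : MvPolynomial σ (PowerSeries K) →ₗ[PowerSeries K] PowerSeries K) : Prop :=
  ∀ (a n : ℕ) (P : MvPolynomial σ K), P ∈ I ^ a → P.IsHomogeneous n → n < T + d * a →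
    PowerSeries.constantCoeff (Λ (map PowerSeries.C P)) = 0

lemma exists_mul (P : MvPolynomial σ (PowerSeries K)) : ∃ Q : MvPolynomial σ (PowerSeries K),
    P - map PowerSeries.C (map PowerSeries.constantCoeff P) = C PowerSeries.X * Q := by
  have h : C (PowerSeries.X : PowerSeries K) ∣
      P - map PowerSeries.C (map PowerSeries.constantCoeff P) := by
    rw [C_dvd_iff_dvd_coeff]
    intro i
    rw [coeff_sub, coeff_map, coeff_map, PowerSeries.X_dvd_iff, map_sub,
      PowerSeries.constantCoeff_C, sub_self]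
  exact h

lemma cc_eq (Λ : MvPolynomial σ (PowerSeries K) →ₗ[PowerSeries K] PowerSeries K)
    (P : MvPolynomial σ (PowerSeries K)) :
    PowerSeries.constantCoeff (Λ P) =
      PowerSeries.constantCoeff (Λ (map PowerSeries.C (map PowerSeries.constantCoeff P))) := by
  obtain ⟨Q, hQ⟩ := exists_mul P
  have h1 : P = map PowerSeries.C (map PowerSeries.constantCoeff P) + C PowerSeries.X * Q := by
    rw [← hQ]; ring
  have h2 : Λ (C PowerSeries.X * Q) = PowerSeries.X * Λ Q := by
    rw [← smul_eq_C_mul, map_smul, smul_eq_mul]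
  conv_lhs => rw [h1]
  rw [map_add, map_add, h2, map_mul, PowerSeries.constantCoeff_X, zero_mul, add_zero]

lemma map_rowId {A B : Type} [CommRing A] [CommRing B] (f : A →+* B) (M : Matrix σ σ A)
    {P : MvPolynomial σ A} {a : ℕ} (hP : P ∈ rowId M ^ a) :
    map f P ∈ rowId (M.map f) ^ a := by
  have h1 : Ideal.map (map f) (rowId M) = rowId (M.map f) := by
    unfold rowId
    rw [Ideal.map_span]
    congr 1
    ext x
    simp only [Set.mem_image, Set.mem_range, exists_exists_eq_and, map_sub, map_X, map_lf]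
    rfl
  rw [← h1, ← Ideal.map_pow]
  exact Ideal.mem_map_of_mem _ hP

lemma dvd_of_deriv [CharZero K] {f : PowerSeries K} {s : ℕ}
    (h0 : PowerSeries.constantCoeff f = 0)
    (h : (PowerSeries.X : PowerSeries K) ^ s ∣ PowerSeries.derivative K f) :
    (PowerSeries.X : PowerSeries K) ^ (s + 1) ∣ f := by
  rw [PowerSeries.X_pow_dvd_iff] at h ⊢
  intro m hm
  rcases m with _ | m
  · rwa [PowerSeries.coeff_zero_eq_constantCoeff_apply]
  · have h1 := h m (by omega)
    rw [PowerSeries.coeff_derivative] at h1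
    rcases mul_eq_zero.mp h1 with h2 | h2
    · exact h2
    · exfalso
      have : ((m + 1 : ℕ) : K) = 0 := by push_cast; exact h2
      exact (Nat.cast_ne_zero.mpr (Nat.succ_ne_zero m)) this

section
variable [CharZero K] [DecidableEq σ] {M : Matrix σ σ (PowerSeries K)} (hM : M * M = M)
  {F G : MvPolynomial σ (PowerSeries K)} {d T m : ℕ} (hF : F.IsHomogeneous d)
  (hFG : cmp M F = C (PowerSeries.X ^ (m + 1)) * G)
  {Λ : MvPolynomial σ (PowerSeries K) →ₗ[PowerSeries K] PowerSeries K} (hΛ : IsFlat F Λ)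
  (hk : Kills d T (rowId (M.map PowerSeries.constantCoeff)) Λ)

include hFG in
lemma dD_F : dD M F = dD M (F - cmp M F) +
    (C (((m : PowerSeries K) + 1) * PowerSeries.X ^ m) * G +
      C (PowerSeries.X ^ (m + 1)) * dD M G) := by
  have h1 : dD M F = dD M (F - cmp M F) + dD M (cmp M F) := by
    rw [← dD_add, sub_add_cancel]
  rw [h1, hFG, dD_mul, dD_C]
  have h2 : PowerSeries.derivative K (PowerSeries.X ^ (m + 1)) =
      ((m : PowerSeries K) + 1) * PowerSeries.X ^ m := by
    rw [Derivation.leibniz_pow]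
    simp
  rw [h2]

include hM hF hFG hΛ in
lemma deriv_split (P : MvPolynomial σ (PowerSeries K)) :
    ∃ R : PowerSeries K, PowerSeries.derivative K (Λ P) =
      Λ (dD M P) + Λ (P * dD M (F - cmp M F)) + (∑ s, dM M s s) * Λ P +
        (((m : PowerSeries K) + 1) * PowerSeries.X ^ m) * Λ (P * G) +
        PowerSeries.X ^ (m + 1) * R := by
  refine ⟨Λ (P * dD M G), ?_⟩
  rw [deriv_eq M hΛ P, dD_F hFG]
  have h1 : P * (dD M (F - cmp M F) + (C (((m : PowerSeries K) + 1) * PowerSeries.X ^ m) * G +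
      C (PowerSeries.X ^ (m + 1)) * dD M G)) = P * dD M (F - cmp M F) +
      (((m : PowerSeries K) + 1) * PowerSeries.X ^ m) • (P * G) +
      (PowerSeries.X ^ (m + 1) : PowerSeries K) • (P * dD M G) := by
    rw [smul_eq_C_mul, smul_eq_C_mul]; ring
  rw [h1, map_add, map_add, map_smul, map_smul, smul_eq_mul, smul_eq_mul]
  ring

include hM hF hFG hΛ hk in
theorem hodge_order : ∀ s ≤ m + 1, ∀ (a n : ℕ) (P : MvPolynomial σ (PowerSeries K)),
    P ∈ rowId M ^ a → P.IsHomogeneous n → n < T + d * a → PowerSeries.X ^ s ∣ Λ P := by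
  intro s
  induction s with
  | zero => intro _ a n P _ _ _; rw [pow_zero]; exact one_dvd _
  | succ s ih =>
    intro hs a n P hP hPn hn
    have ih' := ih (by omega)
    apply dvd_of_deriv
    · rw [cc_eq]
      exact hk a n _ (map_rowId _ M hP) (hPn.map _) hn
    · obtain ⟨R, hR⟩ := deriv_split hM hF hFG hΛ P
      rw [hR]
      have h1 : PowerSeries.X ^ s ∣ Λ (dD M P) :=
        ih' a n _ (dD_rowId_pow M hM a hP) (dD_hom M hPn) hn
      have h2 : PowerSeries.X ^ s ∣ Λ (P * dD M (F - cmp M F)) := by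
        refine ih' (a + 1) (n + d) _ ?_ (hPn.mul (dD_hom M (hF.sub (cmp_hom M hF)))) ?_
        · rw [pow_succ]
          exact Ideal.mul_mem_mul hP (dD_rowId M hM (sub_mem M F))
        · rw [mul_add, mul_one]; omega
      have h3 : PowerSeries.X ^ s ∣ (∑ s, dM M s s) * Λ P :=
        Dvd.dvd.mul_left (ih' a n P hP hPn hn) _
      have h4 : (PowerSeries.X : PowerSeries K) ^ s ∣
          (((m : PowerSeries K) + 1) * PowerSeries.X ^ m) * Λ (P * G) :=
        Dvd.dvd.mul_right (Dvd.dvd.mul_left (pow_dvd_pow _ (by omega)) _) _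
      have h5 : (PowerSeries.X : PowerSeries K) ^ s ∣ PowerSeries.X ^ (m + 1) * R :=
        Dvd.dvd.mul_right (pow_dvd_pow _ (by omega)) _
      exact dvd_add (dvd_add (dvd_add (dvd_add h1 h2) h3) h4) h5

include hM hF hFG hΛ hk in
theorem next_coeff (hd : 1 ≤ d) {n : ℕ} {P : MvPolynomial σ (PowerSeries K)}
    (hP : P.IsHomogeneous n) (hn : n + d ≤ T) :
    PowerSeries.coeff (m + 1) (Λ P) = PowerSeries.constantCoeff (Λ (P * G)) := by
  obtain ⟨R, hR⟩ := deriv_split hM hF hFG hΛ P
  have H := hodge_order hM hF hFG hΛ hk (m + 1) le_rfl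
  have h1 : PowerSeries.X ^ (m + 1) ∣ Λ (dD M P) :=
    H 0 n _ (by simp) (dD_hom M hP) (by omega)
  have h2 : PowerSeries.X ^ (m + 1) ∣ Λ (P * dD M (F - cmp M F)) := by
    refine H 1 (n + d) _ ?_ (hP.mul (dD_hom M (hF.sub (cmp_hom M hF)))) (by omega)
    rw [pow_one]
    exact Ideal.mul_mem_left _ _ (dD_rowId M hM (sub_mem M F))
  have h3 : PowerSeries.X ^ (m + 1) ∣ (∑ s, dM M s s) * Λ P :=
    Dvd.dvd.mul_left (H 0 n P (by simp) hP (by omega)) _
  have h5 : (PowerSeries.X : PowerSeries K) ^ (m + 1) ∣ PowerSeries.X ^ (m + 1) * R :=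
    Dvd.dvd.mul_right dvd_rfl _
  have h6 : (PowerSeries.X : PowerSeries K) ^ (m + 1) ∣ PowerSeries.derivative K (Λ P) -
      (((m : PowerSeries K) + 1) * PowerSeries.X ^ m) * Λ (P * G) := by
    rw [hR]
    have : Λ (dD M P) + Λ (P * dD M (F - cmp M F)) + (∑ s, dM M s s) * Λ P +
        (((m : PowerSeries K) + 1) * PowerSeries.X ^ m) * Λ (P * G) +
        PowerSeries.X ^ (m + 1) * R - (((m : PowerSeries K) + 1) * PowerSeries.X ^ m) * Λ (P * G)
        = Λ (dD M P) + Λ (P * dD M (F - cmp M F)) + (∑ s, dM M s s) * Λ P +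
          PowerSeries.X ^ (m + 1) * R := by ring
    rw [this]
    exact dvd_add (dvd_add (dvd_add h1 h2) h3) h5
  rw [PowerSeries.X_pow_dvd_iff] at h6
  have h7 := h6 m (by omega)
  rw [map_sub, sub_eq_zero, PowerSeries.coeff_derivative] at h7
  have h8 : PowerSeries.coeff m ((((m : PowerSeries K) + 1) * PowerSeries.X ^ m) * Λ (P * G)) =
      ((m : K) + 1) * PowerSeries.constantCoeff (Λ (P * G)) := by
    have e1 : (((m : PowerSeries K) + 1) * PowerSeries.X ^ m) * Λ (P * G) =
        PowerSeries.C ((m : K) + 1) * (PowerSeries.X ^ m * Λ (P * G)) := by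
      rw [map_add, map_natCast, map_one]; ring
    rw [e1, PowerSeries.coeff_C_mul]
    congr 1
    have := PowerSeries.coeff_X_pow_mul (Λ (P * G)) m 0
    rw [zero_add] at this
    rw [this, PowerSeries.coeff_zero_eq_constantCoeff_apply]
  rw [h8, mul_comm] at h7
  have h9 : ((m : K) + 1) ≠ 0 := by exact_mod_cast Nat.succ_ne_zero m
  exact mul_left_cancel₀ h9 h7

end

end Pool.Agent.NH36.Vhc
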