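import Mathlib
import Pool.Agent.TH130.CI.Soc
import Pool.Agent.TH144.MB.Macaulay

/-!
# Forms of the same degree without common zeros: Macaulay's bound with the number of variables, and
duality
-/

set_option autoImplicit false
set_option linter.unusedSectionVars false

open MvPolynomial

namespace Pool.Agent.NH36.Vhc

variable {K : Type} [Field K]

/-- as many forms as variables, without common zeros, are a regular sequence -/
theorem reg_of_zero [IsAlgClosed K] {n : ℕ} (f : Fin n → MvPolynomial (Fin n) K) (d : Fin n → ℕ)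
    (hd : ∀ i, 0 < d i) (hf : ∀ i, (f i).IsHomogeneous (d i))
    (hz : ∀ x : Fin n → K, (∀ i, eval x (f i) = 0) → x = 0) : H503R3.QCI.Reg f := by
  have h := (Pool.Agent.TH144.MB.square (List.ofFn fun i => (f i, d i)) [] (by
    intro x hx
    rw [List.mem_ofFn] at hx
    obtain ⟨i, rfl⟩ := hx
    exact ⟨hf i, hd i⟩) (by simp) (by
    intro v _ hv
    refine hz v fun i => hv (f i, d i) ?_
    rw [List.mem_ofFn]
    exact ⟨i, rfl⟩)).1
  have hext : ∀ (fs : List (MvPolynomial (Fin n) K)) (I : Ideal (MvPolynomial (Fin n) K)),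
      Pool.Agent.TH144.MB.ext I fs = I ⊔ Ideal.span {g | g ∈ fs} := by
    intro fs
    induction fs with
    | nil => intro I; simp [Pool.Agent.TH144.MB.ext]
    | cons f fs ih =>
      intro I
      rw [Pool.Agent.TH144.MB.ext, ih, sup_assoc, ← Ideal.span_union]
      congr 2
      ext g
      simp
  have h1 : (List.ofFn fun i => (f i, d i)).map Prod.fst = List.ofFn f := by
    rw [List.map_ofFn]; rfl
  rw [List.map_nil, List.nil_append, h1] at h
  intro i
  have h2 : List.ofFn f = (List.ofFn f).take i.1 ++ (f i :: (List.ofFn f).drop (i.1 + 1)) := by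
    have h3 : (List.ofFn f).drop i.1 = f i :: (List.ofFn f).drop (i.1 + 1) := by
      rw [List.drop_eq_getElem_cons (by simp)]
      simp
    rw [← h3, List.take_append_drop]
  rw [h2, Pool.Agent.TH144.MB.reg_append] at h
  have h4 := h.2.1
  rw [hext, bot_sup_eq] at h4
  have h5 : {g | g ∈ (List.ofFn f).take i.1} = f '' {j | j < i} := by
    ext x
    simp only [Set.mem_ofPred_eq, Set.mem_image, List.mem_take_iff_getElem, List.getElem_ofFn,
      List.length_ofFn]
    constructor
    · rintro ⟨j, hj, rfl⟩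
      exact ⟨⟨j, by omega⟩, Fin.lt_def.mpr (by simp; omega), rfl⟩
    · rintro ⟨j, hj, rfl⟩
      exact ⟨j.1, by have := Fin.lt_def.mp hj; have := i.2; omega, rfl⟩
  rw [h5] at h4
  exact h4

lemma hom_of_span {σ ι : Type} {f : ι → MvPolynomial σ K} {δ : ℕ}
    (hf : ∀ i, (f i).IsHomogeneous δ) {g : MvPolynomial σ K}
    (hg : g ∈ Submodule.span K (Set.range f)) : g.IsHomogeneous δ := by
  have h1 : Submodule.span K (Set.range f) ≤ homogeneousSubmodule σ K δ := by
    rw [Submodule.span_le]
    rintro _ ⟨i, rfl⟩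
    exact hf i
  exact h1 hg

lemma ideal_of_span {σ ι : Type} {f : ι → MvPolynomial σ K} {g : MvPolynomial σ K}
    (hg : g ∈ Submodule.span K (Set.range f)) : g ∈ Ideal.span (Set.range f) := by
  refine Submodule.span_induction ?_ ?_ ?_ ?_ hg
  · intro x hx; exact Ideal.subset_span hx
  · exact Ideal.zero_mem _
  · intro x y _ _ hx hy; exact Ideal.add_mem _ hx hy
  · intro a x _ hx
    rw [smul_eq_C_mul]; exact Ideal.mul_mem_left _ _ hx

/-- general combinations of forms without common zeros -/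
theorem exists_combos [IsAlgClosed K] {n δ : ℕ} (hδ : 1 ≤ δ) (k : ℕ) :
    ∀ {ι : Type} [Fintype ι] (f : ι → MvPolynomial (Fin n) K), Fintype.card ι = n + k →
    (∀ i, (f i).IsHomogeneous δ) → (∀ x : Fin n → K, (∀ i, eval x (f i) = 0) → x = 0) →
    ∃ g : Fin n → MvPolynomial (Fin n) K, (∀ j, g j ∈ Submodule.span K (Set.range f)) ∧
      ∀ x : Fin n → K, (∀ j, eval x (g j) = 0) → x = 0 := by
  classical
  have := IsAlgClosed.instInfinite (K := K)
  induction k with
  | zero =>
    intro ι _ f hc hf hz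
    have e : ι ≃ Fin n := Fintype.equivOfCardEq (by rw [hc, Fintype.card_fin, add_zero])
    refine ⟨fun j => f (e.symm j), fun j => Submodule.subset_span ⟨_, rfl⟩, fun x hx => hz x ?_⟩
    intro i
    simpa using hx (e i)
  | succ k ih =>
    intro ι _ f hc hf hz
    obtain ⟨c, hcc⟩ := Pool.Agent.TH144.MB.exists_not_mem f (by rw [hc, Fintype.card_fin]; omega)
    obtain ⟨i0, hi0⟩ : ∃ i, c i ≠ 0 := by
      obtain ⟨i, hi⟩ := hcc 0
      refine ⟨i, fun h => hi ?_⟩
      have h1 := Pool.Agent.TH144.MB.eval_smul' (hf i) 0 0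
      rw [zero_pow (by omega), zero_mul] at h1
      rw [h]
      have h2 : (fun i : Fin n => (0 : K) * (0 : Fin n → K) i) = 0 := by funext; simp
      rwa [h2] at h1
    let f' : {i : ι // i ≠ i0} → MvPolynomial (Fin n) K := fun i =>
      f i.1 - C (c i.1 / c i0) * f i0
    have hspan : ∀ i, f' i ∈ Submodule.span K (Set.range f) := by
      intro i
      refine Submodule.sub_mem _ (Submodule.subset_span ⟨_, rfl⟩) ?_
      rw [← smul_eq_C_mul]
      exact Submodule.smul_mem _ _ (Submodule.subset_span ⟨_, rfl⟩)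
    obtain ⟨g, hg, hg0⟩ := ih f' (by
        rw [Fintype.card_subtype_compl, Fintype.card_subtype_eq, hc]; omega)
      (fun i => hom_of_span hf (hspan i)) (by
        intro x hx
        have h1 : ∀ i, eval x (f i) = eval x (f i0) / c i0 * c i := by
          intro i
          by_cases hi : i = i0
          · subst hi; rw [div_mul_cancel₀ _ hi0]
          · have := hx ⟨i, hi⟩
            simp only [f', map_sub, map_mul, eval_C, sub_eq_zero] at this
            rw [this]; ring
        by_cases h0 : eval x (f i0) = 0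
        · exact hz x fun i => by rw [h1 i, h0, zero_div, zero_mul]
        · exfalso
          obtain ⟨μ, hμ⟩ := IsAlgClosed.exists_pow_nat_eq (eval x (f i0) / c i0)⁻¹ (n := δ)
            (by omega)
          obtain ⟨i, hi⟩ := hcc fun j => μ * x j
          apply hi
          rw [Pool.Agent.TH144.MB.eval_smul' (hf i), hμ, h1 i, ← mul_assoc,
            inv_mul_cancel₀ (div_ne_zero h0 hi0), one_mul])
    refine ⟨g, fun j => ?_, hg0⟩
    have h2 : Submodule.span K (Set.range f') ≤ Submodule.span K (Set.range f) := by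
      rw [Submodule.span_le]
      rintro _ ⟨i, rfl⟩
      exact hspan i
    exact h2 (hg j)

variable {ι : Type} [Fintype ι] {n δ : ℕ}

lemma range_le {f : ι → MvPolynomial (Fin n) K} {g : Fin n → MvPolynomial (Fin n) K}
    (h : ∀ j, g j ∈ Submodule.span K (Set.range f)) :
    Ideal.span (Set.range g) ≤ Ideal.span (Set.range f) := by
  rw [Ideal.span_le]
  rintro _ ⟨j, rfl⟩
  exact ideal_of_span (h j)

/-- Macaulay's bound -/
theorem mac [IsAlgClosed K] (hδ : 1 ≤ δ) (f : ι → MvPolynomial (Fin n) K)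
    (hc : n ≤ Fintype.card ι) (hf : ∀ i, (f i).IsHomogeneous δ)
    (hz : ∀ x : Fin n → K, (∀ i, eval x (f i) = 0) → x = 0) {t : ℕ} (ht : n * (δ - 1) < t)
    {p : MvPolynomial (Fin n) K} (hp : p.IsHomogeneous t) : p ∈ Ideal.span (Set.range f) := by
  obtain ⟨g, hg, hg0⟩ := exists_combos hδ (Fintype.card ι - n) f (by omega) hf hz
  exact range_le hg (Pool.Agent.TH144.MB.macaulay_square g (fun _ => δ)
    (fun j => hom_of_span hf (hg j)) (fun _ => hδ) rfl hg0
    (by simpa [Finset.sum_const, Finset.card_univ] using ht) hp)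

/-- duality -/
theorem dual [IsAlgClosed K] (hδ : 1 ≤ δ) (f : ι → MvPolynomial (Fin n) K)
    (hc : n ≤ Fintype.card ι) (hf : ∀ i, (f i).IsHomogeneous δ)
    (hz : ∀ x : Fin n → K, (∀ i, eval x (f i) = 0) → x = 0)
    (μ : MvPolynomial (Fin n) K → K) (hadd : ∀ p q, μ (p - q) = μ p - μ q)
    (hsmul : ∀ (c : K) p, μ (C c * p) = c * μ p)
    (hμ : ∀ p ∈ Ideal.span (Set.range f), p.IsHomogeneous (n * (δ - 1)) → μ p = 0)
    {p0 : MvPolynomial (Fin n) K} (hp0 : p0.IsHomogeneous (n * (δ - 1))) (hne : μ p0 ≠ 0)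
    {e e' : ℕ} (he : e' + e = n * (δ - 1)) {h : MvPolynomial (Fin n) K} (hh : h.IsHomogeneous e')
    (hb : ∀ b : MvPolynomial (Fin n) K, b.IsHomogeneous e → μ (h * b) = 0) :
    h ∈ Ideal.span (Set.range f) := by
  have := IsAlgClosed.instInfinite (K := K)
  obtain ⟨g, hg, hg0⟩ := exists_combos hδ (Fintype.card ι - n) f (by omega) hf hz
  have hgh : ∀ j, (g j).IsHomogeneous δ := fun j => hom_of_span hf (hg j)
  have hreg := reg_of_zero g (fun _ => δ) (fun _ => hδ) hgh hg0
  obtain ⟨φ, hφ, hI⟩ := TH130CI.ci_gor hgh (fun _ => hδ) hreg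
  have hs : ∑ _i : Fin n, (δ - 1) = n * (δ - 1) := by simp
  rw [hs] at hφ
  have hker : ∀ p : MvPolynomial (Fin n) K, p.IsHomogeneous (n * (δ - 1)) → φ p = 0 →
      p ∈ Ideal.span (Set.range g) := by
    intro p hp hp'
    rw [hI, TH130CI.mem_gor]
    refine Pool.Agent.W515.SLP.annP_of_homog hφ le_rfl hp fun v hv => ?_
    rw [Nat.sub_self] at hv
    rw [totalDegree_eq_zero_iff_eq_C.mp (Nat.le_zero.mp hv.totalDegree_le), mul_comm,
      ← smul_eq_C_mul, map_smul, hp', smul_zero]
  have hφ0 : φ p0 ≠ 0 := fun h0 => hne (hμ p0 (range_le hg (hker p0 hp0 h0)) hp0)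
  have hprop : ∀ p : MvPolynomial (Fin n) K, p.IsHomogeneous (n * (δ - 1)) →
      μ p = φ p / φ p0 * μ p0 := by
    intro p hp
    have h1 : (p - C (φ p / φ p0) * p0).IsHomogeneous (n * (δ - 1)) := by
      refine hp.sub ?_
      have := (isHomogeneous_C (Fin n) (φ p / φ p0)).mul hp0
      rwa [zero_add] at this
    have h2 : φ (p - C (φ p / φ p0) * p0) = 0 := by
      rw [map_sub, ← smul_eq_C_mul, map_smul, smul_eq_mul, div_mul_cancel₀ _ hφ0, sub_self]
    have h3 := hμ _ (range_le hg (hker _ h1 h2)) h1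
    rw [hadd, hsmul, sub_eq_zero] at h3
    exact h3
  apply range_le hg
  rw [hI, TH130CI.mem_gor]
  refine Pool.Agent.W515.SLP.annP_of_homog hφ (by omega) hh fun v hv => ?_
  have hv' : v.IsHomogeneous e := by
    rwa [show n * (δ - 1) - e' = e by omega] at hv
  have h4 := hprop (h * v) (by rw [← he]; exact hh.mul hv')
  rw [hb v hv'] at h4
  rcases mul_eq_zero.mp h4.symm with h5 | h5
  · exact (div_eq_zero_iff.mp h5).resolve_right hφ0
  · exact absurd h5 hne

end Pool.Agent.NH36.Vhc
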