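import Mathlib
import Pool.Agent.NH36.Vhc.Sub
import Pool.Agent.NH36.Vhc.Mac

/-!
# Polynomials with prescribed restrictions to linear subspaces
-/

set_option autoImplicit false
set_option linter.unusedSectionVars false

open MvPolynomial Matrix

namespace Pool.Agent.NH36.Vhc

variable {K : Type} [Field K]

/-- coordinates on a linear subspace -/
lemma exists_mats {τ : Type} [Fintype τ] [DecidableEq τ] (W : Submodule K (τ → K)) :
    ∃ (Ψ : Matrix τ (Fin (Module.finrank K W)) K) (ρ : Matrix (Fin (Module.finrank K W)) τ K),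
      ρ * Ψ = 1 ∧ ∀ v, v ∈ W ↔ ∃ z, Ψ *ᵥ z = v := by
  let b := Module.finBasis K W
  let f : (Fin (Module.finrank K W) → K) →ₗ[K] (τ → K) := W.subtype ∘ₗ b.equivFun.symm.toLinearMap
  have hf : Function.Injective f :=
    (Submodule.injective_subtype W).comp b.equivFun.symm.injective
  obtain ⟨g, hg⟩ := f.exists_leftInverse_of_injective (LinearMap.ker_eq_bot.mpr hf)
  refine ⟨LinearMap.toMatrix' f, LinearMap.toMatrix' g, ?_, fun v => ?_⟩
  · rw [← LinearMap.toMatrix'_comp, hg, LinearMap.toMatrix'_id]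
  · constructor
    · intro hv
      refine ⟨b.equivFun ⟨v, hv⟩, ?_⟩
      rw [LinearMap.toMatrix'_mulVec]
      simp [f]
    · rintro ⟨z, rfl⟩
      rw [LinearMap.toMatrix'_mulVec]
      exact (b.equivFun.symm z).2

/-- linear forms on a subspace which vanish on the intersection with another subspace extend to
linear forms which vanish on the other subspace -/
lemma exists_lift {σ τ : Type} [Fintype σ] [DecidableEq σ] [Fintype τ] [DecidableEq τ]
    (Φ : Matrix σ τ K) (Z : Submodule K (σ → K)) (a : τ → K)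
    (ha : ∀ y, Φ *ᵥ y ∈ Z → a ⬝ᵥ y = 0) :
    ∃ a' : σ → K, (∀ z ∈ Z, a' ⬝ᵥ z = 0) ∧ a' ᵥ* Φ = a := by
  let q : (τ → K) →ₗ[K] ((σ → K) ⧸ Z) := Z.mkQ ∘ₗ Matrix.mulVecLin Φ
  let α : (τ → K) →ₗ[K] K := dotProductBilin K K a
  have hq : α ∈ (LinearMap.ker q).dualAnnihilator := by
    rw [Submodule.mem_dualAnnihilator]
    intro y hy
    rw [LinearMap.mem_ker] at hy
    have h1 : Φ *ᵥ y ∈ Z := by
      simpa [q] using hy
    exact ha y h1
  rw [← LinearMap.range_dualMap_eq_dualAnnihilator_ker] at hq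
  obtain ⟨β, hβ⟩ := hq
  have key : ∀ v : σ → K, (fun s => β (Z.mkQ (Pi.single s 1))) ⬝ᵥ v = β (Z.mkQ v) := by
    intro v
    conv_rhs => rw [pi_eq_sum_univ' v]
    rw [map_sum, map_sum]
    refine Finset.sum_congr rfl fun s _ => ?_
    rw [map_smul, map_smul, smul_eq_mul, mul_comm]
  refine ⟨fun s => β (Z.mkQ (Pi.single s 1)), fun z hz => ?_, ?_⟩
  · rw [key, (Submodule.Quotient.mk_eq_zero Z).mpr hz |> (fun h => (h : Z.mkQ z = 0)), map_zero]
  · funext t
    have h1 : ((fun s => β (Z.mkQ (Pi.single s 1))) ᵥ* Φ) t =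
        (fun s => β (Z.mkQ (Pi.single s 1))) ⬝ᵥ (Φ *ᵥ Pi.single t 1) := by
      rw [Matrix.dotProduct_mulVec, dotProduct_single, mul_one]
    rw [h1, key]
    have h2 : β (Z.mkQ (Φ *ᵥ Pi.single t 1)) = α (Pi.single t 1) := by
      rw [← hβ]; rfl
    rw [h2]
    change a ⬝ᵥ Pi.single t 1 = a t
    rw [dotProduct_single, mul_one]

lemma rowId_le {τ ρ : Type} [Fintype τ] [Fintype ρ] [DecidableEq τ] [DecidableEq ρ]
    (Ψ : Matrix τ ρ K) (E : Matrix ρ τ K) (h : E * Ψ = 1) :
    rowId (Ψ * E) ≤ Ideal.span {p | ∃ a : τ → K, (∀ z, a ⬝ᵥ (Ψ *ᵥ z) = 0) ∧ p = lf a} := by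
  unfold rowId
  rw [Ideal.span_le]
  rintro _ ⟨s, rfl⟩
  refine Ideal.subset_span ⟨Pi.single s 1 - (Ψ * E) s, fun z => ?_, ?_⟩
  · rw [sub_dotProduct, single_dotProduct, one_mul]
    have : (Ψ * E) s ⬝ᵥ Ψ *ᵥ z = ((Ψ * E) *ᵥ (Ψ *ᵥ z)) s := rfl
    rw [this, Matrix.mulVec_mulVec, Matrix.mul_assoc, h, Matrix.mul_one, sub_self]
  · rw [lf_sub, lf_single]

/-- Macaulay's bound on a linear subspace -/
theorem mac_sub [IsAlgClosed K] {σ : Type} [Fintype σ] {r δ : ℕ} (hδ : 1 ≤ δ)
    (g : σ → MvPolynomial (Fin r) K) (hc : r ≤ Fintype.card σ) (hg : ∀ i, (g i).IsHomogeneous δ)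
    (hz : ∀ x : Fin r → K, (∀ i, eval x (g i) = 0) → x = 0) (W : Submodule K (Fin r → K))
    {t : ℕ} (ht : Module.finrank K W * (δ - 1) < t)
    {p : MvPolynomial (Fin r) K} (hp : p.IsHomogeneous t) :
    p ∈ Ideal.span (Set.range g) ⊔
      Ideal.span {p | ∃ a : Fin r → K, (∀ z ∈ W, a ⬝ᵥ z = 0) ∧ p = lf a} := by
  classical
  obtain ⟨Ψ, ρ, h1, h2⟩ := exists_mats W
  have hle : Module.finrank K W ≤ r := by
    have := Submodule.finrank_le W
    rwa [Module.finrank_fin_fun] at this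
  have hrow : rowId (Ψ * ρ) ≤
      Ideal.span {p | ∃ a : Fin r → K, (∀ z ∈ W, a ⬝ᵥ z = 0) ∧ p = lf a} := by
    refine (rowId_le Ψ ρ h1).trans (Ideal.span_mono ?_)
    rintro _ ⟨a, ha, rfl⟩
    refine ⟨a, fun z hz => ?_, rfl⟩
    obtain ⟨y, rfl⟩ := (h2 z).mp hz
    exact ha y
  have hm : cmp Ψ p ∈ Ideal.span (Set.range fun i => cmp Ψ (g i)) := by
    refine mac hδ _ (hle.trans hc) (fun i => cmp_hom Ψ (hg i)) ?_ ht (cmp_hom Ψ hp)
    intro x hx
    have h3 : Ψ *ᵥ x = 0 := hz _ fun i => by rw [← eval_cmp]; exact hx i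
    have h4 : ρ *ᵥ (Ψ *ᵥ x) = x := by rw [Matrix.mulVec_mulVec, h1, Matrix.one_mulVec]
    rw [← h4, h3, Matrix.mulVec_zero]
  have hm2 : cmp (Ψ * ρ) p ∈ Ideal.span (Set.range fun i => cmp (Ψ * ρ) (g i)) := by
    rw [← cmp_cmp]
    have h3 := Ideal.mem_map_of_mem (cmp ρ).toRingHom hm
    rw [Ideal.map_span] at h3
    refine Ideal.span_mono ?_ h3
    rintro _ ⟨_, ⟨i, rfl⟩, rfl⟩
    exact ⟨i, by simp only [← cmp_cmp]; rfl⟩
  have hm3 : Ideal.span (Set.range fun i => cmp (Ψ * ρ) (g i)) ≤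
      Ideal.span (Set.range g) ⊔
      Ideal.span {p | ∃ a : Fin r → K, (∀ z ∈ W, a ⬝ᵥ z = 0) ∧ p = lf a} := by
    rw [Ideal.span_le]
    rintro _ ⟨i, rfl⟩
    have h4 : cmp (Ψ * ρ) (g i) = g i - (g i - cmp (Ψ * ρ) (g i)) := by ring
    simp only [SetLike.mem_coe]
    rw [h4]
    exact Ideal.sub_mem _ (Ideal.mem_sup_left (Ideal.subset_span ⟨i, rfl⟩))
      (Ideal.mem_sup_right (hrow (sub_mem _ _)))
  have h5 : p = (p - cmp (Ψ * ρ) p) + cmp (Ψ * ρ) p := by ring
  rw [h5]
  exact Ideal.add_mem _ (Ideal.mem_sup_right (hrow (sub_mem _ _))) (hm3 hm2)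

/-- a form on the subspace `i` is the restriction, modulo the ideal `(g)`, of a form which
vanishes on the subspaces `j ∈ J`, if the intersections are small -/
theorem exists_form [IsAlgClosed K] {σ ι : Type} [Fintype σ] [DecidableEq σ] [DecidableEq ι]
    {r δ : ℕ} (hδ : 1 ≤ δ)
    (g : σ → MvPolynomial (Fin r) K) (hc : r ≤ Fintype.card σ) (hg : ∀ i, (g i).IsHomogeneous δ)
    (hz : ∀ x : Fin r → K, (∀ i, eval x (g i) = 0) → x = 0)
    (Φ : Matrix σ (Fin r) K) (E : Matrix (Fin r) σ K) (hE : E * Φ = 1)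
    (Z : ι → Submodule K (σ → K)) (w : ι → ℕ)
    (hw : ∀ j, Module.finrank K ((Z j).comap (Matrix.mulVecLin Φ)) = w j) :
    ∀ (c : ℕ) (J : Finset ι), J.card = c → ∀ m : ℕ,
      (∀ j ∈ J, (J.filter fun j' => w j ≤ w j').card + w j * (δ - 1) ≤ m) →
      ∀ b : MvPolynomial (Fin r) K, b.IsHomogeneous m →
      ∃ P : MvPolynomial σ K, P.IsHomogeneous m ∧ cmp Φ P - b ∈ Ideal.span (Set.range g) ∧
        ∀ j ∈ J, ∀ z ∈ Z j, eval z P = 0 := by
  intro c
  induction c with
  | zero =>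
    intro J hJ m _ b hb
    rw [Finset.card_eq_zero] at hJ
    refine ⟨cmp E b, cmp_hom E hb, ?_, fun j hj => by simp [hJ] at hj⟩
    rw [cmp_cmp, hE]
    have h1 : cmp (1 : Matrix (Fin r) (Fin r) K) b = b := cmp_one b
    rw [h1, sub_self]
    exact Ideal.zero_mem _
  | succ c ih =>
    intro J hJ m hm b hb
    have hne : J.Nonempty := by rw [← Finset.card_pos]; omega
    obtain ⟨j, hj, hmax⟩ := Finset.exists_max_image J w hne
    have hJ' : (J.erase j).card = c := by rw [Finset.card_erase_of_mem hj]; omega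
    have hmj := hm j hj
    have hpos : 1 ≤ (J.filter fun j' => w j ≤ w j').card :=
      Finset.card_pos.mpr ⟨j, Finset.mem_filter.mpr ⟨hj, le_rfl⟩⟩
    obtain ⟨m, rfl⟩ : ∃ m', m = m' + 1 := ⟨m - 1, by omega⟩
    have IH := ih (J.erase j) hJ' m (by
      intro j' hj'
      have h1 := hm j' (Finset.mem_of_mem_erase hj')
      have h2 : ((J.erase j).filter fun j'' => w j' ≤ w j'').card + 1 ≤
          (J.filter fun j'' => w j' ≤ w j'').card := by
        have h3 : (J.erase j).filter (fun j'' => w j' ≤ w j'') =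
            (J.filter fun j'' => w j' ≤ w j'').erase j := by
          ext x
          simp only [Finset.mem_filter, Finset.mem_erase]
          tauto
        have h4 : j ∈ J.filter fun j'' => w j' ≤ w j'' :=
          Finset.mem_filter.mpr ⟨hj, hmax j' (Finset.mem_of_mem_erase hj')⟩
        rw [h3, Finset.card_erase_add_one h4]
      omega)
    -- the good submodule
    let T : Submodule K (MvPolynomial (Fin r) K) :=
      { carrier := {b | ∃ P : MvPolynomial σ K, P.IsHomogeneous (m + 1) ∧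
          cmp Φ P - b ∈ Ideal.span (Set.range g) ∧ ∀ j ∈ J, ∀ z ∈ Z j, eval z P = 0}
        zero_mem' := ⟨0, isHomogeneous_zero _ _ _, by simp, by simp⟩
        add_mem' := by
          rintro x y ⟨P, h1, h2, h3⟩ ⟨Q, h4, h5, h6⟩
          refine ⟨P + Q, h1.add h4, ?_, fun j hj z hz => ?_⟩
          · have : cmp Φ (P + Q) - (x + y) = (cmp Φ P - x) + (cmp Φ Q - y) := by
              rw [map_add]; ring
            rw [this]; exact Ideal.add_mem _ h2 h5
          · rw [map_add, h3 j hj z hz, h6 j hj z hz, add_zero]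
        smul_mem' := by
          rintro k x ⟨P, h1, h2, h3⟩
          refine ⟨C k * P, ?_, ?_, fun j hj z hz => ?_⟩
          · have := (isHomogeneous_C σ k).mul h1
            rwa [zero_add] at this
          · have : cmp Φ (C k * P) - k • x = C k * (cmp Φ P - x) := by
              rw [map_mul, smul_eq_C_mul]
              have h7 : cmp Φ (C k) = C k := by rw [cmp, aeval_C]; rfl
              rw [h7]; ring
            rw [this]; exact Ideal.mul_mem_left _ _ h2
          · rw [map_mul, h3 j hj z hz, mul_zero] }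
    have hTg : ∀ x ∈ Ideal.span (Set.range g), x ∈ T := by
      intro x hx
      exact ⟨0, isHomogeneous_zero _ _ _, by
        rw [map_zero, zero_sub]; exact (Ideal.neg_mem_iff _).mpr hx, by simp⟩
    have hgen : ∀ (a : Fin r → K), (∀ z ∈ (Z j).comap (Matrix.mulVecLin Φ), a ⬝ᵥ z = 0) →
        ∀ q : MvPolynomial (Fin r) K, q.IsHomogeneous m → lf a * q ∈ T := by
      intro a ha q hq
      obtain ⟨a', h1, h2⟩ := exists_lift Φ (Z j) a (by
        intro y hy
        exact ha y hy)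
      obtain ⟨P, h3, h4, h5⟩ := IH q hq
      refine ⟨lf a' * P, ?_, ?_, ?_⟩
      · have := (lf_hom a').mul h3
        rwa [add_comm] at this
      · have : cmp Φ (lf a' * P) - lf a * q = lf a * (cmp Φ P - q) := by
          rw [map_mul, cmp_lf, h2]; ring
        rw [this]; exact Ideal.mul_mem_left _ _ h4
      · intro j' hj' z hz
        rw [map_mul]
        by_cases hjj : j' = j
        · subst hjj
          rw [eval_lf, h1 z hz, zero_mul]
        · rw [h5 j' (Finset.mem_erase.mpr ⟨hjj, hj'⟩) z hz, mul_zero]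
    have hhom : Pool.Agent.TH144.MB.Hom (Ideal.span (Set.range g)) :=
      Pool.Agent.TH144.MB.hom_span (by rintro _ ⟨i, rfl⟩; exact ⟨δ, hg i⟩)
    have hmem := mac_sub hδ g hc hg hz ((Z j).comap (Matrix.mulVecLin Φ)) (t := m + 1)
      (by rw [hw j]; omega) hb
    obtain ⟨x, hx, y, hy, hxy⟩ := Submodule.mem_sup.mp hmem
    have hyT : ∀ q : MvPolynomial (Fin r) K, homogeneousComponent (m + 1) (q * y) ∈ T := by
      refine Submodule.span_induction (p := fun y _ => ∀ q : MvPolynomial (Fin r) K,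
        homogeneousComponent (m + 1) (q * y) ∈ T) ?_ ?_ ?_ ?_ hy
      · rintro _ ⟨a, ha, rfl⟩ q
        rw [mul_comm]
        have h6 := Pool.Agent.TH144.MB.comp_mul (lf_hom a) q m
        rw [add_comm 1 m] at h6
        rw [h6]
        exact hgen a ha _ (homogeneousComponent_isHomogeneous _ _)
      · intro q
        rw [mul_zero, map_zero]; exact T.zero_mem
      · intro u v _ _ hu hv q
        rw [mul_add, map_add]; exact T.add_mem (hu q) (hv q)
      · intro a u _ hu q
        rw [smul_eq_mul, ← mul_assoc]; exact hu _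
    have hbT : b ∈ T := by
      have h7 : b = homogeneousComponent (m + 1) x + homogeneousComponent (m + 1) (1 * y) := by
        rw [one_mul, ← map_add, hxy, homogeneousComponent_of_mem hb, if_pos rfl]
      rw [h7]
      exact T.add_mem (hTg _ (hhom x hx _)) (hyT 1)
    exact hbT

end Pool.Agent.NH36.Vhc
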