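import Mathlib
import Pool.Agent.NH36.Vhc.Sect
import Pool.Agent.NH36.Vhc.Hodge

/-!
# Deformation of linear subspaces of hypersurfaces: one step
-/

set_option autoImplicit false
set_option linter.unusedSectionVars false

open MvPolynomial Matrix

namespace Pool.Agent.NH36.Vhc

variable {K : Type} [Field K] {σ : Type} [Fintype σ] [DecidableEq σ]

/-- the ideal generated by the linear forms which vanish on a linear subspace -/
noncomputable def linIdeal (Z : Submodule K (σ → K)) : Ideal (MvPolynomial σ K) :=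
  Ideal.span {l | l.IsHomogeneous 1 ∧ ∀ z ∈ Z, eval z l = 0}

lemma rowId_le_linIdeal {r : ℕ} {Z : Submodule K (σ → K)} {Φ : Matrix σ (Fin r) K}
    {E : Matrix (Fin r) σ K} (hE : E * Φ = 1) (hZ : ∀ v, v ∈ Z ↔ ∃ z, Φ *ᵥ z = v) :
    rowId (Φ * E) ≤ linIdeal Z := by
  refine (rowId_le Φ E hE).trans (Ideal.span_mono ?_)
  rintro _ ⟨a, ha, rfl⟩
  refine ⟨lf_hom a, fun z hz => ?_⟩
  obtain ⟨y, rfl⟩ := (hZ z).mp hz
  rw [eval_lf]; exact ha y

/-- a lift of a left inverse -/
lemma exists_left {r : ℕ} {Φ : Matrix σ (Fin r) (PowerSeries K)} {E0 : Matrix (Fin r) σ K}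
    (h : E0 * Φ.map PowerSeries.constantCoeff = 1) :
    ∃ E : Matrix (Fin r) σ (PowerSeries K), E * Φ = 1 ∧ E.map PowerSeries.constantCoeff = E0 := by
  set N : Matrix (Fin r) (Fin r) (PowerSeries K) := E0.map PowerSeries.C * Φ with hN
  have h1 : N.map PowerSeries.constantCoeff = 1 := by
    rw [hN, Matrix.map_mul, Matrix.map_map]
    have : (PowerSeries.constantCoeff ∘ PowerSeries.C : K → K) = id := by
      funext x; exact PowerSeries.constantCoeff_C x
    rw [this, Matrix.map_id, h]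
  have h2 : IsUnit N.det := by
    rw [PowerSeries.isUnit_iff_constantCoeff]
    have : PowerSeries.constantCoeff N.det = (N.map PowerSeries.constantCoeff).det := by
      rw [RingHom.map_det]; rfl
    rw [this, h1, Matrix.det_one]
    exact isUnit_one
  refine ⟨N⁻¹ * E0.map PowerSeries.C, ?_, ?_⟩
  · rw [Matrix.mul_assoc, ← hN, Matrix.nonsing_inv_mul _ h2]
  · have h3 : (N⁻¹).map PowerSeries.constantCoeff = 1 := by
      have h4 : (N * N⁻¹).map PowerSeries.constantCoeff = 1 := by
        rw [Matrix.mul_nonsing_inv _ h2]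
        exact Matrix.map_one _ (map_zero _) (map_one _)
      rw [Matrix.map_mul, h1, Matrix.one_mul] at h4
      exact h4
    rw [Matrix.map_mul, h3, Matrix.one_mul, Matrix.map_map]
    have : (PowerSeries.constantCoeff ∘ PowerSeries.C : K → K) = id := by
      funext x; exact PowerSeries.constantCoeff_C x
    rw [this, Matrix.map_id]

/-- the functional on the subspace -/
noncomputable def mu {r : ℕ} (E0 : Matrix (Fin r) σ K)
    (Λ : MvPolynomial σ (PowerSeries K) →ₗ[PowerSeries K] PowerSeries K)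
    (q : MvPolynomial (Fin r) K) : K :=
  PowerSeries.constantCoeff (Λ (map PowerSeries.C (cmp E0 q)))

section
variable {r : ℕ} {Z : Submodule K (σ → K)} {Φ0 : Matrix σ (Fin r) K} {E0 : Matrix (Fin r) σ K}
  (hE : E0 * Φ0 = 1) (hZ : ∀ v, v ∈ Z ↔ ∃ z, Φ0 *ᵥ z = v) {d : ℕ} (hd : 2 ≤ d)
  {F : MvPolynomial σ (PowerSeries K)}
  {Λ : MvPolynomial σ (PowerSeries K) →ₗ[PowerSeries K] PowerSeries K} (hΛ : IsFlat F Λ)
  (hk : Kills d (r * (d - 2)) (linIdeal Z) Λ)

lemma mu_sub (p q : MvPolynomial (Fin r) K) : mu E0 Λ (p - q) = mu E0 Λ p - mu E0 Λ q := by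
  unfold mu; simp only [map_sub]

lemma mu_add (p q : MvPolynomial (Fin r) K) : mu E0 Λ (p + q) = mu E0 Λ p + mu E0 Λ q := by
  unfold mu; simp only [map_add]

lemma mu_zero : mu E0 Λ 0 = 0 := by
  unfold mu; simp only [map_zero]

lemma mu_C (c : K) (p : MvPolynomial (Fin r) K) : mu E0 Λ (C c * p) = c * mu E0 Λ p := by
  unfold mu
  have h1 : cmp E0 (C c) = C c := by rw [cmp, aeval_C]; rfl
  rw [map_mul, h1, map_mul, map_C, ← smul_eq_C_mul, map_smul, smul_eq_mul, map_mul,
    PowerSeries.constantCoeff_C]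

include hE hZ hk in
lemma mu_cmp (hd1 : 1 ≤ d) {Q : MvPolynomial σ K} (hQ : Q.IsHomogeneous (r * (d - 2))) :
    PowerSeries.constantCoeff (Λ (map PowerSeries.C Q)) = mu E0 Λ (cmp Φ0 Q) := by
  unfold mu
  rw [cmp_cmp, ← sub_eq_zero, ← map_sub, ← map_sub, ← map_sub]
  refine hk 1 (r * (d - 2)) _ ?_ (hQ.sub (cmp_hom _ hQ)) (by omega)
  rw [pow_one]
  exact rowId_le_linIdeal hE hZ (sub_mem _ _)

include hE hZ hd hΛ hk in
lemma mu_ideal (hF : F.IsHomogeneous d) {p : MvPolynomial (Fin r) K}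
    (hp : p ∈ Ideal.span (Set.range fun s : σ =>
      cmp Φ0 (pderiv s (map PowerSeries.constantCoeff F)))) :
    ∀ q : MvPolynomial (Fin r) K,
      mu E0 Λ (homogeneousComponent (r * (d - 2)) (q * p)) = 0 := by
  have hgh : ∀ s, (cmp Φ0 (pderiv s (map PowerSeries.constantCoeff F))).IsHomogeneous (d - 1) :=
    fun s => cmp_hom _ (hF.map _).pderiv
  refine Submodule.span_induction (p := fun p _ => ∀ q : MvPolynomial (Fin r) K,
      mu E0 Λ (homogeneousComponent (r * (d - 2)) (q * p)) = 0) ?_ ?_ ?_ ?_ hp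
  · rintro _ ⟨s, rfl⟩ q
    simp only
    rw [mul_comm q]
    rcases lt_or_ge (r * (d - 2)) (d - 1) with h | h
    · rw [Pool.Agent.TH144.MB.comp_mul_lt (hgh s) q h, mu_zero]
    · obtain ⟨n, hn⟩ := Nat.exists_eq_add_of_le h
      rw [hn, Pool.Agent.TH144.MB.comp_mul (hgh s) q n]
      set q' := homogeneousComponent n q with hq'
      have hq'h : q'.IsHomogeneous n := homogeneousComponent_isHomogeneous _ _
      have e1 : cmp Φ0 (cmp E0 q') = q' := by rw [cmp_cmp, hE, cmp_one]
      have e2 : cmp Φ0 (pderiv s (map PowerSeries.constantCoeff F)) * q' =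
          cmp Φ0 (pderiv s (map PowerSeries.constantCoeff F) * cmp E0 q') := by
        rw [map_mul, e1]
      rw [e2, ← mu_cmp hE hZ hk (by omega) (by
        rw [hn]
        exact ((hF.map _).pderiv).mul (cmp_hom _ hq'h))]
      have h1 := hΛ.exact s (map PowerSeries.C (cmp E0 q'))
      have h2 : PowerSeries.constantCoeff
          (Λ (map PowerSeries.C (cmp E0 q') * pderiv s F)) = 0 := by
        rw [map_add] at h1
        have h3 : Λ (map PowerSeries.C (cmp E0 q') * pderiv s F) =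
            - Λ (pderiv s (map PowerSeries.C (cmp E0 q'))) := by
          linear_combination h1
        rw [h3, map_neg, pderiv_map, neg_eq_zero]
        refine hk 0 (n - 1) _ (by simp) (cmp_hom _ hq'h).pderiv ?_
        omega
      rw [cc_eq, map_mul, ← pderiv_map, MvPolynomial.map_map] at h2
      have h4 : (PowerSeries.constantCoeff.comp PowerSeries.C : K →+* K) = RingHom.id K :=
        PowerSeries.constantCoeff_comp_C
      rw [h4, MvPolynomial.map_id, mul_comm] at h2
      exact h2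
  · intro q; rw [mul_zero, map_zero, mu_zero]
  · intro u v _ _ hu hv q
    rw [mul_add, map_add, mu_add, hu, hv, add_zero]
  · intro a u _ hu q
    rw [smul_eq_mul, ← mul_assoc]; exact hu _

end

/-- a form of degree one is a linear form -/
lemma eq_lf {τ : Type} [Fintype τ] [DecidableEq τ] {p : MvPolynomial τ K} (hp : p.IsHomogeneous 1) :
    ∃ v : τ → K, p = lf v := by
  refine ⟨fun t => p.coeff (Finsupp.single t 1), ?_⟩
  ext1 m
  unfold lf
  rw [coeff_sum]
  simp only [coeff_C_mul, coeff_X]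
  by_cases hm : m.degree = 1
  · obtain ⟨t, rfl⟩ : ∃ t, m = Finsupp.single t 1 := by
      have h1 : m ≠ 0 := by rintro rfl; simp at hm
      obtain ⟨t, ht⟩ := Finsupp.ne_iff.mp h1
      rw [Finsupp.coe_zero, Pi.zero_apply] at ht
      have hle : Finsupp.single t 1 ≤ m := by
        rw [Finsupp.single_le_iff]; omega
      refine ⟨t, ?_⟩
      have h2 : m = (m - Finsupp.single t 1) + Finsupp.single t 1 := (tsub_add_cancel_of_le hle).symm
      have h3 := congrArg Finsupp.degree h2
      rw [map_add, Finsupp.degree_single, hm] at h3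
      have h4 : (m - Finsupp.single t 1).degree = 0 := by omega
      rw [Finsupp.degree_eq_zero_iff] at h4
      rw [h2, h4, zero_add]
    rw [Finset.sum_eq_single t]
    · rw [if_pos rfl, mul_one]
    · intro t' _ ht'
      rw [if_neg, mul_zero]
      intro h
      exact ht' ((Finsupp.single_left_injective one_ne_zero) h)
    · intro h; exact absurd (Finset.mem_univ t) h
  · rw [hp.coeff_eq_zero hm]
    symm
    refine Finset.sum_eq_zero fun t _ => ?_
    rw [if_neg, mul_zero]
    rintro rfl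
    rw [Finsupp.degree_single] at hm
    exact hm rfl

/-- a form of degree `d` in the ideal of forms of degree `d - 1` -/
lemma exists_lin {τ : Type} [Fintype τ] [DecidableEq τ] {g : σ → MvPolynomial τ K} {d : ℕ}
    (hd : 1 ≤ d) (hg : ∀ s, (g s).IsHomogeneous (d - 1)) {h : MvPolynomial τ K}
    (hh : h.IsHomogeneous d) (hm : h ∈ Ideal.span (Set.range g)) :
    ∃ v : σ → τ → K, h = ∑ s, lf (v s) * g s := by
  obtain ⟨a, ha⟩ := Ideal.mem_span_range_iff_exists_fun.mp hm
  have h1 : ∀ s, ∃ v : τ → K, homogeneousComponent 1 (a s) = lf v := fun s =>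
    eq_lf (homogeneousComponent_isHomogeneous _ _)
  choose v hv using h1
  refine ⟨v, ?_⟩
  have h2 : h = homogeneousComponent d h := by rw [homogeneousComponent_of_mem hh, if_pos rfl]
  rw [h2, ← ha, map_sum]
  refine Finset.sum_congr rfl fun s _ => ?_
  have h3 := Pool.Agent.TH144.MB.comp_mul (hg s) (a s) 1
  rw [show d - 1 + 1 = d by omega] at h3
  rw [mul_comm, h3, hv, mul_comm]

section key
variable [IsAlgClosed K] [CharZero K] {ι : Type} [Fintype ι] [DecidableEq ι]
  {r d : ℕ} (hd : 2 ≤ d) (hr : r ≤ Fintype.card σ)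
  {F : MvPolynomial σ (PowerSeries K)} (hF : F.IsHomogeneous d)
  (hsm : ∀ x : σ → K, (∀ s, eval x (pderiv s (map PowerSeries.constantCoeff F)) = 0) → x = 0)
  {Z : ι → Submodule K (σ → K)} {Φ0 : ι → Matrix σ (Fin r) K} {E0 : ι → Matrix (Fin r) σ K}
  (hE : ∀ i, E0 i * Φ0 i = 1) (hZ : ∀ i v, v ∈ Z i ↔ ∃ z, Φ0 i *ᵥ z = v)
  {Λ : ι → MvPolynomial σ (PowerSeries K) →ₗ[PowerSeries K] PowerSeries K}
  (hΛ : ∀ i, IsFlat F (Λ i)) (hk : ∀ i, Kills d (r * (d - 2)) (linIdeal (Z i)) (Λ i))
  (hne : ∀ i, ∃ P : MvPolynomial σ K, P.IsHomogeneous (r * (d - 2)) ∧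
    PowerSeries.constantCoeff (Λ i (map PowerSeries.C P)) ≠ 0)
  {c : ι → K} (hc : ∀ i, c i ≠ 0)
  (hw : ∀ i j, j ≠ i → 2 + ((Finset.univ.erase i).filter fun j' =>
      Module.finrank K (Z i ⊓ Z j : Submodule K (σ → K)) ≤
        Module.finrank K (Z i ⊓ Z j' : Submodule K (σ → K))).card ≤
    (r - 1 - Module.finrank K (Z i ⊓ Z j : Submodule K (σ → K))) * (d - 2))

omit [DecidableEq σ] [IsAlgClosed K] [CharZero K] [Fintype ι] [DecidableEq ι] in
include hE hZ in
lemma finrank_comap (i j : ι) :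
    Module.finrank K ((Z j).comap (Matrix.mulVecLin (Φ0 i))) =
      Module.finrank K (Z i ⊓ Z j : Submodule K (σ → K)) := by
  have hinj : Function.Injective (Matrix.mulVecLin (Φ0 i)) := by
    intro x y hxy
    have h1 := congrArg (fun v => E0 i *ᵥ v) hxy
    simpa [Matrix.mulVec_mulVec, hE i] using h1
  have h1 : (Z i ⊓ Z j : Submodule K (σ → K)) =
      ((Z j).comap (Matrix.mulVecLin (Φ0 i))).map (Matrix.mulVecLin (Φ0 i)) := by
    rw [Submodule.map_comap_eq]
    congr 1
    ext v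
    rw [hZ i v, LinearMap.mem_range]
    rfl
  rw [h1]
  exact (LinearEquiv.finrank_eq (Submodule.equivMapOfInjective _ hinj _))

include hd hr hF hsm hE hZ hΛ hk hne hc hw in
/-- the obstruction to the deformation of each of the subspaces vanishes -/
theorem obstruction {m : ℕ}
    (hH : ∀ (n : ℕ) (P : MvPolynomial σ (PowerSeries K)), P.IsHomogeneous n → n < r * (d - 2) →
      PowerSeries.X ^ (m + 2) ∣ ∑ i, PowerSeries.C (c i) * Λ i P)
    {Φ : ι → Matrix σ (Fin r) (PowerSeries K)}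
    (hΦ : ∀ i, (Φ i).map PowerSeries.constantCoeff = Φ0 i)
    {h : ι → MvPolynomial (Fin r) (PowerSeries K)}
    (hh : ∀ i, cmp (Φ i) F = C (PowerSeries.X ^ (m + 1)) * h i) (i : ι) :
    map PowerSeries.constantCoeff (h i) ∈ Ideal.span (Set.range fun s : σ =>
      cmp (Φ0 i) (pderiv s (map PowerSeries.constantCoeff F))) := by
  set F0 := map PowerSeries.constantCoeff F with hF0
  have hF0h : F0.IsHomogeneous d := hF.map _
  have hgh : ∀ i s, (cmp (Φ0 i) (pderiv s F0)).IsHomogeneous (d - 1) :=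
    fun i s => cmp_hom _ hF0h.pderiv
  have hgz : ∀ i, ∀ x : Fin r → K, (∀ s, eval x (cmp (Φ0 i) (pderiv s F0)) = 0) → x = 0 := by
    intro i x hx
    have h1 := hsm (Φ0 i *ᵥ x) fun s => by rw [← eval_cmp]; exact hx s
    have h2 : E0 i *ᵥ (Φ0 i *ᵥ x) = x := by rw [Matrix.mulVec_mulVec, hE, Matrix.one_mulVec]
    rw [← h2, h1, Matrix.mulVec_zero]
  -- the forms `h i` are homogeneous
  have hhh : ∀ i, (h i).IsHomogeneous d := by
    intro i a ha
    apply cmp_hom (Φ i) hF
    rw [hh i, coeff_C_mul]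
    exact mul_ne_zero (pow_ne_zero _ PowerSeries.X_ne_zero) ha
  set h0 : ι → MvPolynomial (Fin r) K := fun i => map PowerSeries.constantCoeff (h i) with hh0
  have hh0h : ∀ i, (h0 i).IsHomogeneous d := fun i => (hhh i).map _
  change h0 i ∈ _
  have hd1 : d - 1 - 1 = d - 2 := by omega
  rcases lt_or_ge (r * (d - 2)) d with hlt | hge
  · exact mac (δ := d - 1) (by omega) _ hr (hgh i) (hgz i) (by rw [hd1]; exact hlt) (hh0h i)
  obtain ⟨e, he⟩ := Nat.exists_eq_add_of_le hge
  -- lifts of the left inverses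
  have hEx : ∀ i, ∃ E : Matrix (Fin r) σ (PowerSeries K), E * Φ i = 1 ∧
      E.map PowerSeries.constantCoeff = E0 i := fun i => exists_left (by rw [hΦ i, hE i])
  choose E hE1 hE2 using hEx
  have hMi : ∀ i, (Φ i * E i) * (Φ i * E i) = Φ i * E i := by
    intro i
    rw [Matrix.mul_assoc, ← Matrix.mul_assoc (E i), hE1, Matrix.one_mul]
  have hM0 : ∀ i, (Φ i * E i).map PowerSeries.constantCoeff = Φ0 i * E0 i := by
    intro i; rw [Matrix.map_mul, hΦ, hE2]
  have hFG : ∀ i, cmp (Φ i * E i) F = C (PowerSeries.X ^ (m + 1)) * cmp (E i) (h i) := by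
    intro i
    rw [← cmp_cmp, hh i, map_mul]
    congr 1
    rw [cmp, aeval_C]; rfl
  have hk' : ∀ i, Kills d (r * (d - 2)) (rowId ((Φ i * E i).map PowerSeries.constantCoeff))
      (Λ i) := by
    intro i a n P hP hPn hn
    refine hk i a n P (Ideal.pow_right_mono ?_ a hP) hPn hn
    rw [hM0 i]
    exact rowId_le_linIdeal (hE i) (hZ i)
  -- the next coefficient
  have hnext : ∀ (i : ι) (P : MvPolynomial σ K), P.IsHomogeneous e →
      PowerSeries.coeff (m + 1) (Λ i (map PowerSeries.C P)) =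
        mu (E0 i) (Λ i) (cmp (Φ0 i) P * h0 i) := by
    intro i P hP
    rw [next_coeff (hMi i) hF (hFG i) (hΛ i) (hk' i) (by omega) (hP.map _) (by omega), cc_eq,
      map_mul, MvPolynomial.map_map, PowerSeries.constantCoeff_comp_C, MvPolynomial.map_id,
      map_cmp, hE2 i]
    rw [mu_cmp (hE i) (hZ i) (hk i) (by omega)]
    · congr 1
      have : cmp (Φ0 i) (cmp (E0 i) (h0 i)) = h0 i := by rw [cmp_cmp, hE, cmp_one]
      rw [map_mul]
      congr 1
    · have h1 := hP.mul (cmp_hom (E0 i) (hh0h i))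
      rw [he, add_comm]
      exact h1
  have hsum : ∀ P : MvPolynomial σ K, P.IsHomogeneous e →
      ∑ j, c j * mu (E0 j) (Λ j) (cmp (Φ0 j) P * h0 j) = 0 := by
    intro P hP
    have h1 := hH e (map PowerSeries.C P) (hP.map _) (by omega)
    rw [PowerSeries.X_pow_dvd_iff] at h1
    have h1 := h1 (m + 1) (by omega)
    rw [map_sum] at h1
    rw [← h1]
    refine Finset.sum_congr rfl fun j _ => ?_
    rw [PowerSeries.coeff_C_mul, hnext j P hP]
  have hideal := fun {p : MvPolynomial (Fin r) K} hp q =>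
    mu_ideal (hE i) (hZ i) hd (hΛ i) (hk i) hF (p := p) hp q
  have hideal' : ∀ p ∈ Ideal.span (Set.range fun s : σ => cmp (Φ0 i) (pderiv s F0)),
      p.IsHomogeneous (r * (d - 1 - 1)) → mu (E0 i) (Λ i) p = 0 := by
    intro p hp hph
    have := hideal hp 1
    rwa [one_mul, homogeneousComponent_of_mem (by rwa [hd1] at hph), if_pos rfl] at this
  obtain ⟨P0, hP0, hP0ne⟩ := hne i
  refine dual (δ := d - 1) (by omega) _ hr (hgh i) (hgz i) (mu (E0 i) (Λ i))
    mu_sub mu_C hideal' (p0 := cmp (Φ0 i) P0) (by rw [hd1]; exact cmp_hom _ hP0)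
    (by rwa [← mu_cmp (hE i) (hZ i) (hk i) (by omega) hP0]) (e := e) (e' := d)
    (by rw [hd1]; exact he.symm) (hh0h i) ?_
  intro b hb
  obtain ⟨P, hP, hP1, hP2⟩ := exists_form (δ := d - 1) (by omega)
    (fun s : σ => cmp (Φ0 i) (pderiv s F0)) hr (hgh i) (hgz i) (Φ0 i) (E0 i) (hE i) Z
    (fun j => Module.finrank K (Z i ⊓ Z j : Submodule K (σ → K)))
    (fun j => finrank_comap hE hZ i j) _ (Finset.univ.erase i) rfl e (by
      intro j hj
      have h1 := hw i j (Finset.ne_of_mem_erase hj)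
      rw [hd1]
      set w := Module.finrank K (Z i ⊓ Z j : Submodule K (σ → K)) with hwdef
      have hwr : w + 1 ≤ r := by
        by_contra hcon
        have h2 : r - 1 - w = 0 := by omega
        rw [h2, zero_mul] at h1
        omega
      obtain ⟨u, hu⟩ := Nat.exists_eq_add_of_le hwr
      have h2 : r - 1 - w = u := by omega
      rw [h2] at h1
      have h3 : r * (d - 2) = w * (d - 2) + (d - 2) + u * (d - 2) := by rw [hu]; ring
      omega) b hb
  have h1 := hsum P hP
  rw [Finset.sum_eq_single i] at h1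
  · have h2 := (mul_eq_zero.mp h1).resolve_left (hc i)
    have h3 : mu (E0 i) (Λ i) (b * h0 i) = mu (E0 i) (Λ i) (cmp (Φ0 i) P * h0 i) -
        mu (E0 i) (Λ i) ((cmp (Φ0 i) P - b) * h0 i) := by
      rw [← mu_sub]; congr 1; ring
    rw [mul_comm (h0 i) b, h3, h2, zero_sub, neg_eq_zero]
    refine hideal' _ (Ideal.mul_mem_right _ _ hP1) ?_
    rw [hd1, he, add_comm]
    exact ((cmp_hom _ hP).sub hb).mul (hh0h i)
  · intro j _ hj
    have h2 : cmp (Φ0 j) P = 0 := by
      have := IsAlgClosed.instInfinite (K := K)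
      refine MvPolynomial.funext fun x => ?_
      rw [eval_cmp, map_zero]
      exact hP2 j (Finset.mem_erase.mpr ⟨hj, Finset.mem_univ j⟩) _ ((hZ j _).mpr ⟨x, rfl⟩)
    rw [h2, zero_mul, mu_zero, mul_zero]
  · intro h; exact absurd (Finset.mem_univ i) h

end key

end Pool.Agent.NH36.Vhc
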