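import Mathlib
import Pool.Agent.NH36.Vhc.Step

/-!
# Deformation of linear subspaces of hypersurfaces: the limit
-/

set_option autoImplicit false
set_option linter.unusedSectionVars false

open MvPolynomial Matrix

namespace Pool.Agent.NH36.Vhc

variable {K : Type} [Field K] {σ : Type} [Fintype σ] [DecidableEq σ] {r : ℕ}

lemma cmp_C {A : Type} [CommRing A] {σ τ : Type} [Fintype σ] [Fintype τ] (M : Matrix σ τ A)
    (a : A) : cmp M (C a) = C a := by rw [cmp, aeval_C]; rfl

/-- Taylor's formula for a matrix -/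
lemma cmp_add {A : Type} [CommRing A] {σ τ : Type} [Fintype σ] [Fintype τ] (M N : Matrix σ τ A)
    (a : A) (P : MvPolynomial σ A) :
    ∃ Q : MvPolynomial τ A, cmp (M + a • N) P =
      cmp M P + C a * (∑ s, lf (N s) * cmp M (pderiv s P)) + C a ^ 2 * Q := by
  obtain ⟨Q, hQ⟩ := taylor (fun s => lf (M s)) (fun s => lf (N s)) (C a : MvPolynomial τ A) P
  refine ⟨Q, ?_⟩
  rw [show cmp M = aeval fun s => lf (M s) from rfl, ← hQ]
  have h1 : (fun s => lf ((M + a • N) s)) = fun s => lf (M s) + C a * lf (N s) := by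
    funext s
    unfold lf
    rw [Finset.mul_sum, ← Finset.sum_add_distrib]
    refine Finset.sum_congr rfl fun t _ => ?_
    have : (M + a • N) s t = M s t + a * N s t := rfl
    rw [this, C_add, C_mul]; ring
  rw [cmp, h1]

/-- one step of the deformation -/
theorem step {d m : ℕ} (hd : 1 ≤ d) {F : MvPolynomial σ (PowerSeries K)} (hF : F.IsHomogeneous d)
    {Φ : Matrix σ (Fin r) (PowerSeries K)}
    {h : MvPolynomial (Fin r) (PowerSeries K)}
    (hh : cmp Φ F = C (PowerSeries.X ^ (m + 1)) * h) (hhd : h.IsHomogeneous d)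
    (hmem : map PowerSeries.constantCoeff h ∈ Ideal.span (Set.range fun s : σ =>
      cmp (Φ.map PowerSeries.constantCoeff) (pderiv s (map PowerSeries.constantCoeff F)))) :
    ∃ (N : Matrix σ (Fin r) (PowerSeries K)) (h' : MvPolynomial (Fin r) (PowerSeries K)),
      cmp (Φ + (PowerSeries.X ^ (m + 1) : PowerSeries K) • N) F =
        C (PowerSeries.X ^ (m + 1 + 1)) * h' := by
  obtain ⟨v, hv⟩ := exists_lin hd
    (fun s => cmp_hom (Φ.map PowerSeries.constantCoeff) ((hF.map _).pderiv (i := s)))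
    (hhd.map _) hmem
  let N : Matrix σ (Fin r) (PowerSeries K) := fun s t => PowerSeries.C (-(v s t))
  obtain ⟨Q, hQ⟩ := cmp_add Φ N (PowerSeries.X ^ (m + 1)) F
  have h1 : map PowerSeries.constantCoeff (h + ∑ s, lf (N s) * cmp Φ (pderiv s F)) = 0 := by
    rw [map_add, map_sum, hv, ← Finset.sum_add_distrib]
    refine Finset.sum_eq_zero fun s _ => ?_
    rw [map_mul, map_lf, map_cmp, ← pderiv_map]
    have h2 : (fun t => PowerSeries.constantCoeff (N s t)) = 0 - v s := by
      funext t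
      simp only [N, Pi.sub_apply, Pi.zero_apply, zero_sub]
      exact PowerSeries.constantCoeff_C _
    rw [h2, lf_sub]
    have h3 : lf (0 : Fin r → K) = 0 := by simp [lf]
    rw [h3]; ring
  obtain ⟨Q', hQ'⟩ := exists_mul (h + ∑ s, lf (N s) * cmp Φ (pderiv s F))
  rw [h1, map_zero, sub_zero] at hQ'
  refine ⟨N, Q' + C (PowerSeries.X ^ m) * Q, ?_⟩
  rw [hQ, hh]
  have h4 : C (PowerSeries.X ^ (m + 1)) * h + C (PowerSeries.X ^ (m + 1)) *
      (∑ s, lf (N s) * cmp Φ (pderiv s F)) + C (PowerSeries.X ^ (m + 1)) ^ 2 * Q =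
      C (PowerSeries.X ^ (m + 1)) * (h + ∑ s, lf (N s) * cmp Φ (pderiv s F)) +
        C (PowerSeries.X ^ (m + 1)) ^ 2 * Q := by ring
  rw [h4, hQ']
  simp only [map_pow]
  ring

/-- congruent matrices -/
lemma cmp_congr {τ : Type} [Fintype τ] {M N : Matrix σ τ (PowerSeries K)} {n : ℕ}
    (h : ∀ s t, (PowerSeries.X : PowerSeries K) ^ n ∣ M s t - N s t)
    (P : MvPolynomial σ (PowerSeries K)) :
    C (PowerSeries.X ^ n) ∣ cmp M P - cmp N P := by
  obtain ⟨D, hD⟩ : ∃ D : Matrix σ τ (PowerSeries K), ∀ s t,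
      M s t - N s t = PowerSeries.X ^ n * D s t := by
    choose D hD using h
    exact ⟨D, hD⟩
  have h1 : M = N + (PowerSeries.X ^ n : PowerSeries K) • D := by
    funext s t
    have : (N + (PowerSeries.X ^ n : PowerSeries K) • D) s t =
      N s t + PowerSeries.X ^ n * D s t := rfl
    rw [this, ← hD]; ring
  obtain ⟨Q, hQ⟩ := cmp_add N D (PowerSeries.X ^ n) P
  rw [← h1] at hQ
  rw [hQ]
  refine ⟨(∑ s, lf (D s) * cmp N (pderiv s P)) + C (PowerSeries.X ^ n) * Q, ?_⟩
  ring

/-- the limit of a convergent sequence of matrices -/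
lemma exists_limit {τ : Type} [Fintype τ] (M : ℕ → Matrix σ τ (PowerSeries K))
    (h : ∀ m s t, (PowerSeries.X : PowerSeries K) ^ (m + 1) ∣ M (m + 1) s t - M m s t) :
    ∃ L : Matrix σ τ (PowerSeries K), ∀ m s t,
      (PowerSeries.X : PowerSeries K) ^ (m + 1) ∣ L s t - M m s t := by
  refine ⟨fun s t => PowerSeries.mk fun n => PowerSeries.coeff n (M n s t), fun m s t => ?_⟩
  rw [PowerSeries.X_pow_dvd_iff]
  intro n hn
  rw [map_sub, PowerSeries.coeff_mk, sub_eq_zero]
  obtain ⟨k, rfl⟩ := Nat.exists_eq_add_of_le (Nat.lt_succ_iff.mp hn)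
  clear hn
  induction k with
  | zero => rfl
  | succ k ih =>
    rw [ih]
    have h1 := h (n + k) s t
    rw [PowerSeries.X_pow_dvd_iff] at h1
    have h2 := h1 n (by omega)
    rw [map_sub, sub_eq_zero] at h2
    exact h2.symm

/-- a power series divisible by all powers of the variable -/
lemma eq_zero_of_dvd {f : PowerSeries K} (h : ∀ m, (PowerSeries.X : PowerSeries K) ^ (m + 1) ∣ f) :
    f = 0 := by
  ext n
  have h1 := h n
  rw [PowerSeries.X_pow_dvd_iff] at h1
  rw [h1 n (by omega), map_zero]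

end Pool.Agent.NH36.Vhc
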