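import Mathlib
import Pool.Agent.NH36.Vhc.Lim

/-!
# Deformation of linear subspaces of hypersurfaces: all orders
-/

set_option autoImplicit false
set_option linter.unusedSectionVars false

open MvPolynomial Matrix

namespace Pool.Agent.NH36.Vhc

variable {K : Type} [Field K] {σ : Type} [Fintype σ] [DecidableEq σ]

section key
variable [IsAlgClosed K] [CharZero K] {ι : Type} [Fintype ι] [DecidableEq ι]
  {r d : ℕ} (hd : 2 ≤ d) (hr : r ≤ Fintype.card σ)
  {F : MvPolynomial σ (PowerSeries K)} (hF : F.IsHomogeneous d)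
  (hsm : ∀ x : σ → K, (∀ s, eval x (pderiv s (map PowerSeries.constantCoeff F)) = 0) → x = 0)
  {Z : ι → Submodule K (σ → K)} {Φ0 : ι → Matrix σ (Fin r) K} {E0 : ι → Matrix (Fin r) σ K}
  (hE : ∀ i, E0 i * Φ0 i = 1) (hZ : ∀ i v, v ∈ Z i ↔ ∃ z, Φ0 i *ᵥ z = v)
  (hFZ : ∀ i, ∀ z ∈ Z i, eval z (map PowerSeries.constantCoeff F) = 0)
  {Λ : ι → MvPolynomial σ (PowerSeries K) →ₗ[PowerSeries K] PowerSeries K}
  (hΛ : ∀ i, IsFlat F (Λ i)) (hk : ∀ i, Kills d (r * (d - 2)) (linIdeal (Z i)) (Λ i))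
  (hne : ∀ i, ∃ P : MvPolynomial σ K, P.IsHomogeneous (r * (d - 2)) ∧
    PowerSeries.constantCoeff (Λ i (map PowerSeries.C P)) ≠ 0)
  {c : ι → K} (hc : ∀ i, c i ≠ 0)
  (hw : ∀ i j, j ≠ i → 2 + ((Finset.univ.erase i).filter fun j' =>
      Module.finrank K (Z i ⊓ Z j : Submodule K (σ → K)) ≤
        Module.finrank K (Z i ⊓ Z j' : Submodule K (σ → K))).card ≤
    (r - 1 - Module.finrank K (Z i ⊓ Z j : Submodule K (σ → K))) * (d - 2))

/-- deformations of order `m` -/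
def Def (F : MvPolynomial σ (PowerSeries K)) (Φ0 : ι → Matrix σ (Fin r) K) (m : ℕ)
    (Φ : ι → Matrix σ (Fin r) (PowerSeries K)) : Prop :=
  (∀ i, (Φ i).map PowerSeries.constantCoeff = Φ0 i) ∧
    ∀ i, C (PowerSeries.X ^ (m + 1)) ∣ cmp (Φ i) F

include hd hr hF hsm hE hZ hΛ hk hne hc hw in
theorem def_succ {m : ℕ}
    (hH : ∀ (n : ℕ) (P : MvPolynomial σ (PowerSeries K)), P.IsHomogeneous n → n < r * (d - 2) →
      PowerSeries.X ^ (m + 2) ∣ ∑ i, PowerSeries.C (c i) * Λ i P)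
    {Φ : ι → Matrix σ (Fin r) (PowerSeries K)} (h : Def F Φ0 m Φ) :
    ∃ Φ' : ι → Matrix σ (Fin r) (PowerSeries K), Def F Φ0 (m + 1) Φ' ∧
      ∀ i s t, PowerSeries.X ^ (m + 1) ∣ Φ' i s t - Φ i s t := by
  obtain ⟨h1, h2⟩ := h
  choose g hg using h2
  have hgh : ∀ i, (g i).IsHomogeneous d := by
    intro i a ha
    apply cmp_hom (Φ i) hF
    rw [hg i, coeff_C_mul]
    exact mul_ne_zero (pow_ne_zero _ PowerSeries.X_ne_zero) ha
  have h3 := obstruction hd hr hF hsm hE hZ hΛ hk hne hc hw hH h1 hg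
  have h4 : ∀ i, ∃ (N : Matrix σ (Fin r) (PowerSeries K))
      (h' : MvPolynomial (Fin r) (PowerSeries K)),
      cmp (Φ i + (PowerSeries.X ^ (m + 1) : PowerSeries K) • N) F =
        C (PowerSeries.X ^ (m + 1 + 1)) * h' := by
    intro i
    refine step (by omega) hF (hg i) (hgh i) ?_
    rw [h1 i]
    exact h3 i
  choose N h' hN using h4
  refine ⟨fun i => Φ i + (PowerSeries.X ^ (m + 1) : PowerSeries K) • N i, ⟨fun i => ?_, fun i =>
    ⟨h' i, hN i⟩⟩, fun i s t => ⟨N i s t, ?_⟩⟩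
  · rw [← h1 i]
    ext s t
    change PowerSeries.constantCoeff (Φ i s t + PowerSeries.X ^ (m + 1) * N i s t) =
      PowerSeries.constantCoeff (Φ i s t)
    rw [map_add, map_mul, map_pow,
      PowerSeries.constantCoeff_X, zero_pow (Nat.succ_ne_zero m), zero_mul, add_zero]
  · change Φ i s t + PowerSeries.X ^ (m + 1) * N i s t - Φ i s t =
      PowerSeries.X ^ (m + 1) * N i s t
    ring

include hZ hFZ in
theorem def_zero : Def F Φ0 0 (fun i => (Φ0 i).map PowerSeries.C) := by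
  have h0 : ∀ i, ((Φ0 i).map PowerSeries.C).map PowerSeries.constantCoeff = Φ0 i := by
    intro i
    rw [Matrix.map_map]
    have : (PowerSeries.constantCoeff ∘ PowerSeries.C : K → K) = id := by
      funext x; exact PowerSeries.constantCoeff_C x
    rw [this, Matrix.map_id]
  refine ⟨h0, fun i => ?_⟩
  obtain ⟨Q, hQ⟩ := exists_mul (cmp ((Φ0 i).map PowerSeries.C) F)
  have h1 : map PowerSeries.constantCoeff (cmp ((Φ0 i).map PowerSeries.C) F) = 0 := by
    rw [map_cmp, h0 i]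
    have := IsAlgClosed.instInfinite (K := K)
    refine MvPolynomial.funext fun x => ?_
    rw [eval_cmp, map_zero]
    exact hFZ i _ ((hZ i _).mpr ⟨x, rfl⟩)
  rw [h1, map_zero, sub_zero] at hQ
  refine ⟨Q, ?_⟩
  rw [hQ, zero_add, pow_one]

include hd hr hF hsm hE hZ hFZ hΛ hk hne hc hw in
/-- finite order -/
theorem finite_order {N : ℕ}
    (hH : ∀ (n : ℕ) (P : MvPolynomial σ (PowerSeries K)), P.IsHomogeneous n → n < r * (d - 2) →
      PowerSeries.X ^ (N + 1) ∣ ∑ i, PowerSeries.C (c i) * Λ i P) :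
    ∃ Φ : ι → Matrix σ (Fin r) (PowerSeries K), Def F Φ0 N Φ := by
  have key : ∀ m ≤ N, ∃ Φ : ι → Matrix σ (Fin r) (PowerSeries K), Def F Φ0 m Φ := by
    intro m
    induction m with
    | zero => intro _; exact ⟨_, def_zero hZ hFZ⟩
    | succ m ih =>
      intro hm
      obtain ⟨Φ, hΦ⟩ := ih (by omega)
      obtain ⟨Φ', hΦ', _⟩ := def_succ hd hr hF hsm hE hZ hΛ hk hne hc hw (m := m)
        (fun n P hP hn => (pow_dvd_pow _ (by omega)).trans (hH n P hP hn)) hΦ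
      exact ⟨Φ', hΦ'⟩
  exact key N le_rfl

include hd hr hF hsm hE hZ hFZ hΛ hk hne hc hw in
/-- all orders -/
theorem all_orders
    (hH : ∀ (n : ℕ) (P : MvPolynomial σ (PowerSeries K)), P.IsHomogeneous n → n < r * (d - 2) →
      ∑ i, PowerSeries.C (c i) * Λ i P = 0) :
    ∃ Φ : ι → Matrix σ (Fin r) (PowerSeries K),
      (∀ i, (Φ i).map PowerSeries.constantCoeff = Φ0 i) ∧ (∀ i, cmp (Φ i) F = 0) ∧
      ∀ i (n : ℕ) (P : MvPolynomial σ (PowerSeries K)), P.IsHomogeneous n → n < r * (d - 2) →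
        Λ i P = 0 := by
  have hs : ∀ (m : ℕ) (Φ : {Φ : ι → Matrix σ (Fin r) (PowerSeries K) // Def F Φ0 m Φ}),
      ∃ Φ' : {Φ : ι → Matrix σ (Fin r) (PowerSeries K) // Def F Φ0 (m + 1) Φ},
        ∀ i s t, PowerSeries.X ^ (m + 1) ∣ Φ'.1 i s t - Φ.1 i s t := by
    rintro m ⟨Φ, hΦ⟩
    obtain ⟨Φ', hΦ', h⟩ := def_succ hd hr hF hsm hE hZ hΛ hk hne hc hw (m := m)
        (fun n P hP hn => by rw [hH n P hP hn]; exact dvd_zero _) hΦ
    exact ⟨⟨Φ', hΦ'⟩, h⟩
  choose next hnext using hs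
  let S : ∀ m : ℕ, {Φ : ι → Matrix σ (Fin r) (PowerSeries K) // Def F Φ0 m Φ} := fun m =>
    Nat.rec ⟨_, def_zero hZ hFZ⟩ (fun m Φ => next m Φ) m
  have hS : ∀ m i s t, PowerSeries.X ^ (m + 1) ∣ (S (m + 1)).1 i s t - (S m).1 i s t :=
    fun m => hnext m (S m)
  have hlim : ∀ i, ∃ L : Matrix σ (Fin r) (PowerSeries K), ∀ m s t,
      (PowerSeries.X : PowerSeries K) ^ (m + 1) ∣ L s t - (S m).1 i s t := fun i =>
    exists_limit (fun m => (S m).1 i) fun m s t => hS m i s t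
  choose L hL using hlim
  have hL0 : ∀ i, (L i).map PowerSeries.constantCoeff = Φ0 i := by
    intro i
    rw [← (S 0).2.1 i]
    ext s t
    have h1 := hL i 0 s t
    rw [zero_add, pow_one, PowerSeries.X_dvd_iff, map_sub, sub_eq_zero] at h1
    exact h1
  have hL1 : ∀ i, cmp (L i) F = 0 := by
    intro i
    ext1 a
    rw [coeff_zero]
    apply eq_zero_of_dvd
    intro m
    have h1 : C (PowerSeries.X ^ (m + 1)) ∣ cmp (L i) F := by
      have h2 := cmp_congr (hL i m) F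
      have h3 := dvd_add h2 ((S m).2.2 i)
      rwa [sub_add_cancel] at h3
    rw [C_dvd_iff_dvd_coeff] at h1
    exact h1 a
  refine ⟨L, hL0, hL1, fun i n P hP hn => ?_⟩
  obtain ⟨E, hE1, hE2⟩ := exists_left (Φ := L i) (E0 := E0 i) (by rw [hL0 i, hE i])
  have hM : (L i * E) * (L i * E) = L i * E := by
    rw [Matrix.mul_assoc, ← Matrix.mul_assoc E, hE1, Matrix.one_mul]
  apply eq_zero_of_dvd
  intro m
  refine hodge_order (m := m) (G := 0) hM hF ?_ (hΛ i) (T := r * (d - 2)) ?_ (m + 1) le_rfl 0 n P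
    (by simp) hP (by omega)
  · rw [← cmp_cmp, hL1 i, map_zero, mul_zero]
  · intro a n P hP hPn hn
    refine hk i a n P (Ideal.pow_right_mono ?_ a hP) hPn hn
    rw [Matrix.map_mul, hL0 i, hE2]
    exact rowId_le_linIdeal (hE i) (hZ i)

end key

end Pool.Agent.NH36.Vhc
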